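import Pool.Agent.ConjInterp.TLemma

/-!
The induction over conjugate pairs.
-/

set_option autoImplicit false

namespace Pool.Agent.ConjInterp

open Complex Set MeasureTheory intervalIntegral Metric ComplexConjugate

/-- The combination `Q G^(m+1) + (m+1) Q' G^(m)` for a conjugate pair. -/
noncomputable def Xfun (z : ℂ) (m : ℕ) (G : ℂ → ℂ) (x : ℂ) : ℂ :=
  (x - z) * (x - conj z) * iteratedDeriv (m + 1) G x
    + (m + 1) * ((x - z) + (x - conj z)) * iteratedDeriv m G x

theorem remove_pair {z : ℂ} (hz : ‖z‖ ≤ 1) (m : ℕ) {G : ℂ → ℂ} (hG : Differentiable ℂ G) {C : ℝ}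
    (hC : ∀ w, ‖w‖ ≤ 1 →
      ‖iteratedDeriv (m + 2) (fun w => (w - z) * ((w - conj z) * G w)) w‖ ≤ C) {x : ℂ}
    (hx : ‖x‖ ≤ 1) : ‖iteratedDeriv m G x‖ ≤ C / (((m:ℝ) + 2) * (m + 1)) := by
  have hz' : ‖conj z‖ ≤ 1 := by rw [RCLike.norm_conj]; exact hz
  have h1 : ∀ w, ‖w‖ ≤ 1 → ‖iteratedDeriv (m + 1) (fun w => (w - conj z) * G w) w‖
      ≤ C / (((m + 1 : ℕ) : ℝ) + 1) :=
    fun w hw => remove_one hz (m + 1) (entire_lin (conj z) hG) hC hw
  have h2 := remove_one hz' m hG h1 hx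
  refine h2.trans (le_of_eq ?_)
  push_cast
  rw [div_div]
  ring_nf

theorem t_lemma {z : ℂ} (hz : ‖z‖ ≤ 1) (m : ℕ) {G : ℂ → ℂ} (hG : Differentiable ℂ G) {C : ℝ}
    (hC : ∀ w, ‖w‖ ≤ 1 →
      ‖iteratedDeriv (m + 2) (fun w => (w - z) * ((w - conj z) * G w)) w‖ ≤ C) {x α : ℝ}
    (hx : |x| ≤ 1) (h1 : |x - z.re| ≤ α)
    (h2 : (x - z.re) ^ 2 + z.im ^ 2 ≤ 2 * |z.im| * α ∨ |z.im| ≤ |x - z.re|) :
    ‖Xfun z m G x‖ ≤ 2 * α * C / ((m:ℝ) + 2) := by
  have hC0 : 0 ≤ C := (norm_nonneg _).trans (hC 0 (by simp))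
  have hx' : ‖(x:ℂ)‖ ≤ 1 := by rw [Complex.norm_real]; exact hx
  have hz' : ‖conj z‖ ≤ 1 := by rw [RCLike.norm_conj]; exact hz
  by_cases hb : z.im = 0
  · -- real node
    have hzc : conj z = z := Complex.conj_eq_iff_im.2 hb
    have hB1 : ‖iteratedDeriv (m + 1) (fun w => (w - conj z) * G w) (x:ℂ)‖
        ≤ C / (((m + 1 : ℕ) : ℝ) + 1) :=
      remove_one hz (m + 1) (entire_lin (conj z) hG) hC hx'
    have hB2 := remove_pair hz m hG hC hx'
    have hX : Xfun z m G x = ((x:ℂ) - z) *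
        (iteratedDeriv (m + 1) (fun w => (w - conj z) * G w) (x:ℂ)
          + (m + 1) * iteratedDeriv m G x) := by
      rw [iter_lin_succ (conj z) m hG, Xfun, hzc]
      ring
    have hxz : ‖(x:ℂ) - z‖ ≤ α := by
      have : (x:ℂ) - z = ((x - z.re : ℝ) : ℂ) := by
        apply Complex.ext <;> simp [hb]
      rw [this, Complex.norm_real]
      exact h1
    rw [hX, norm_mul]
    have hs : ‖iteratedDeriv (m + 1) (fun w => (w - conj z) * G w) (x:ℂ)
          + (m + 1) * iteratedDeriv m G x‖ ≤ 2 * C / ((m:ℝ) + 2) := by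
      refine (norm_add_le _ _).trans ?_
      rw [norm_mul]
      have hn : ‖((m:ℂ) + 1)‖ = (m:ℝ) + 1 := by
        have : ((m:ℂ) + 1) = (((m:ℝ) + 1 : ℝ) : ℂ) := by push_cast; ring
        rw [this, Complex.norm_real, Real.norm_of_nonneg (by positivity)]
      rw [hn]
      have h3 : ((m:ℝ) + 1) * ‖iteratedDeriv m G (x:ℂ)‖ ≤ C / ((m:ℝ) + 2) := by
        calc ((m:ℝ) + 1) * ‖iteratedDeriv m G (x:ℂ)‖
            ≤ ((m:ℝ) + 1) * (C / (((m:ℝ) + 2) * (m + 1))) :=
              mul_le_mul_of_nonneg_left hB2 (by positivity)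
          _ = C / ((m:ℝ) + 2) := by
              have h1 : (m:ℝ) + 1 ≠ 0 := by positivity
              have h2 : (m:ℝ) + 2 ≠ 0 := by positivity
              field_simp
      have h4 : C / (((m + 1 : ℕ) : ℝ) + 1) = C / ((m:ℝ) + 2) := by
        push_cast; ring_nf
      rw [h4] at hB1
      have h5 : 2 * C / ((m:ℝ) + 2) = C / ((m:ℝ) + 2) + C / ((m:ℝ) + 2) := by ring
      rw [h5]
      exact add_le_add hB1 h3
    have hα : 0 ≤ α := (abs_nonneg _).trans h1
    calc ‖(x:ℂ) - z‖ * ‖iteratedDeriv (m + 1) (fun w => (w - conj z) * G w) (x:ℂ)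
          + (m + 1) * iteratedDeriv m G x‖ ≤ α * (2 * C / ((m:ℝ) + 2)) :=
          mul_le_mul hxz hs (norm_nonneg _) hα
      _ = 2 * α * C / ((m:ℝ) + 2) := by ring
  · -- nonreal node
    set F : ℂ → ℂ := fun w => (w - z) * ((w - conj z) * G w) with hF
    have hFd : Differentiable ℂ F := entire_lin z (entire_lin (conj z) hG)
    have hswap : F = fun w => (w - conj z) * ((w - z) * G w) := by
      funext w; simp only [hF]; ring
    set f : ℂ → ℂ := iteratedDeriv m F with hf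
    have hfd : Differentiable ℂ f := entire_iteratedDeriv hFd m
    have hd1 : deriv f = iteratedDeriv (m + 1) F := by rw [iteratedDeriv_succ]
    have hd2 : deriv (deriv f) = iteratedDeriv (m + 2) F := by
      rw [hd1, ← iteratedDeriv_succ]
    set ρ : ℂ := z - x with hρ
    set σ : ℂ := conj z - x with hσ
    have hcomb : (conj z - z) * Xfun z m G x
        = ∫ s in (0:ℝ)..1, ((1:ℂ) - (s:ℂ)) ^ (m + 1) * Dfun'' f x ρ σ s := by
      have hu1 := int_formula z x (m + 1) (entire_lin (conj z) hG)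
      have hu2 := int_formula (conj z) x (m + 1) (entire_lin z hG)
      rw [iter_lin_succ (conj z) m hG] at hu1
      rw [iter_lin_succ z m hG] at hu2
      rw [show (fun w => (w - conj z) * ((w - z) * G w)) = F from hswap.symm] at hu2
      rw [show (fun w => (w - z) * ((w - conj z) * G w)) = F from rfl] at hu1
      have hc : ∀ τ : ℂ, Continuous (fun s : ℝ => ((1:ℂ) - (s:ℂ)) ^ (m + 1) *
          iteratedDeriv (m + 1 + 1) F ((x:ℂ) + (s:ℂ) * τ)) := fun τ =>
        (cont_pow (m + 1)).mul (continuous_along (entire_iteratedDeriv hFd _) _ _)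
      have hsplit : ∫ s in (0:ℝ)..1, ((1:ℂ) - (s:ℂ)) ^ (m + 1) * Dfun'' f x ρ σ s
          = ρ ^ 2 * (∫ s in (0:ℝ)..1, ((1:ℂ) - (s:ℂ)) ^ (m + 1) *
              iteratedDeriv (m + 1 + 1) F ((x:ℂ) + (s:ℂ) * ρ))
            - σ ^ 2 * (∫ s in (0:ℝ)..1, ((1:ℂ) - (s:ℂ)) ^ (m + 1) *
              iteratedDeriv (m + 1 + 1) F ((x:ℂ) + (s:ℂ) * σ)) := by
        have hi : ∀ τ : ℂ, IntervalIntegrable (fun s : ℝ => τ ^ 2 *
            (((1:ℂ) - (s:ℂ)) ^ (m + 1) * iteratedDeriv (m + 1 + 1) F ((x:ℂ) + (s:ℂ) * τ)))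
            volume 0 1 := fun τ => Continuous.intervalIntegrable (continuous_const.mul (hc τ)) 0 1
        rw [← intervalIntegral.integral_const_mul, ← intervalIntegral.integral_const_mul,
          ← intervalIntegral.integral_sub (hi ρ) (hi σ)]
        apply intervalIntegral.integral_congr
        intro s _
        simp only [Dfun'', hd2]
        ring
      rw [hsplit, hρ, hσ, ← hu1, ← hu2, Xfun]
      ring
    have hJ := norm_J hfd (x:ℂ) ρ σ m (K := 2 * |z.im| * α * C) (by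
      intro s hs
      have hb1 : ∀ w, ‖w‖ ≤ 1 → ‖deriv (deriv f) w‖ ≤ C := by
        rw [hd2]; exact hC
      have hmem := mem_ball_path hx' hz hs
      have e1 : (x:ℂ) + (s:ℂ) * ρ = ((x - s * (x - z.re) : ℝ) : ℂ) + ((s * z.im : ℝ) : ℂ) * I := by
        apply Complex.ext
        · simp [hρ]; ring
        · simp [hρ]
      have e2 : (x:ℂ) + (s:ℂ) * σ
          = ((x - s * (x - z.re) : ℝ) : ℂ) + ((-(s * z.im) : ℝ) : ℂ) * I := by
        apply Complex.ext
        · simp [hσ]; ring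
        · simp [hσ]
      have hz1 : (x - s * (x - z.re)) ^ 2 + (s * z.im) ^ 2 ≤ 1 := by
        rw [← norm_le_one_iff_mk, ← e1]
        exact hmem
      have h := vert hfd hb1 (x := x) (m := s * (x - z.re)) (b := s * z.im) (α := s * α) hx hz1
        (by rw [abs_mul, abs_of_nonneg hs.1]; exact mul_le_mul_of_nonneg_left h1 hs.1)
        (by
          rcases h2 with h2 | h2
          · left
            rw [abs_mul, abs_of_nonneg hs.1]
            have h3 := mul_le_mul_of_nonneg_left h2 (mul_nonneg hs.1 hs.1)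
            calc (s * (x - z.re)) ^ 2 + (s * z.im) ^ 2
                = s * s * ((x - z.re) ^ 2 + z.im ^ 2) := by ring
              _ ≤ s * s * (2 * |z.im| * α) := h3
              _ = 2 * (s * |z.im|) * (s * α) := by ring
          · right
            rw [abs_mul, abs_mul, abs_of_nonneg hs.1]
            exact mul_le_mul_of_nonneg_left h2 hs.1)
      have e3 : Dfun f x ρ σ s = f (((x - s * (x - z.re) : ℝ) : ℂ) + ((s * z.im : ℝ) : ℂ) * I)
          - f (((x - s * (x - z.re) : ℝ) : ℂ) + ((-(s * z.im) : ℝ) : ℂ) * I)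
          - (2 * ((s * z.im : ℝ) : ℂ) * I) * deriv f x := by
        rw [Dfun, e1, e2]
        have : ρ - σ = 2 * (z.im : ℂ) * I := by
          apply Complex.ext
          · simp [hρ, hσ]
          · simp [hρ, hσ]; ring
        rw [this]
        push_cast
        ring
      rw [e3]
      refine h.trans (le_of_eq ?_)
      rw [abs_mul, abs_of_nonneg hs.1]
      ring)
    rw [← hcomb, norm_mul] at hJ
    have hn : ‖conj z - z‖ = 2 * |z.im| := by
      have : conj z - z = ((-(2 * z.im) : ℝ) : ℂ) * I := by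
        apply Complex.ext
        · simp
        · simp; ring
      rw [this, norm_mul, Complex.norm_I, mul_one, Complex.norm_real, Real.norm_eq_abs, abs_neg,
        abs_mul, abs_two]
    rw [hn] at hJ
    have hpos : 0 < 2 * |z.im| := by positivity
    have h3 : 2 * |z.im| * ‖Xfun z m G x‖ ≤ 2 * |z.im| * (2 * α * C / ((m:ℝ) + 2)) := by
      refine hJ.trans (le_of_eq ?_)
      ring
    exact le_of_mul_le_mul_left h3 hpos

end Pool.Agent.ConjInterp
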