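import Mathlib

/-!
Iterated derivatives of entire functions multiplied by linear factors.
-/

set_option autoImplicit false

namespace Pool.Agent.ConjInterp

open Complex Set

theorem entire_deriv {G : ℂ → ℂ} (hG : Differentiable ℂ G) : Differentiable ℂ (deriv G) :=
  hG.contDiff.differentiable_deriv_two

theorem entire_iteratedDeriv {G : ℂ → ℂ} (hG : Differentiable ℂ G) (k : ℕ) :
    Differentiable ℂ (iteratedDeriv k G) := by
  induction k with
  | zero => simpa [iteratedDeriv_zero] using hG
  | succ k ih =>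
    rw [iteratedDeriv_succ]
    exact entire_deriv ih

theorem entire_contDiffAt {G : ℂ → ℂ} (hG : Differentiable ℂ G) (k : ℕ) (x : ℂ) :
    ContDiffAt ℂ k G x := hG.contDiff.contDiffAt

theorem hasDerivAt_iter {G : ℂ → ℂ} (hG : Differentiable ℂ G) (k : ℕ) (x : ℂ) :
    HasDerivAt (iteratedDeriv k G) (iteratedDeriv (k + 1) G x) x := by
  rw [iteratedDeriv_succ]
  exact ((entire_iteratedDeriv hG k) x).hasDerivAt

theorem entire_lin (c : ℂ) {G : ℂ → ℂ} (hG : Differentiable ℂ G) :
    Differentiable ℂ (fun w => (w - c) * G w) :=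
  (differentiable_id.sub_const c).mul hG

theorem deriv_lin (c : ℂ) {G : ℂ → ℂ} (hG : Differentiable ℂ G) :
    deriv (fun w => (w - c) * G w) = fun w => G w + (w - c) * deriv G w := by
  funext w
  have h1 : HasDerivAt (fun w : ℂ => w - c) 1 w := (hasDerivAt_id w).sub_const c
  have h := h1.fun_mul (hG w).hasDerivAt
  rw [h.deriv]
  ring

/-- `((w - c) G)^(k+1) = (w - c) G^(k+1) + (k+1) G^(k)`. -/
theorem iter_lin_succ (c : ℂ) (k : ℕ) : ∀ {G : ℂ → ℂ}, Differentiable ℂ G → ∀ x : ℂ,
    iteratedDeriv (k + 1) (fun w => (w - c) * G w) x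
      = (x - c) * iteratedDeriv (k + 1) G x + (k + 1) * iteratedDeriv k G x := by
  induction k with
  | zero =>
    intro G hG x
    rw [iteratedDeriv_one, deriv_lin c hG, iteratedDeriv_one, iteratedDeriv_zero]
    push_cast
    ring
  | succ k ih =>
    intro G hG x
    rw [iteratedDeriv_succ', deriv_lin c hG]
    have hadd := iteratedDeriv_fun_add (n := k + 1) (entire_contDiffAt hG (k + 1) x)
      (entire_contDiffAt (entire_lin c (entire_deriv hG)) (k + 1) x)
    rw [hadd, ih (entire_deriv hG) x, ← iteratedDeriv_succ', ← iteratedDeriv_succ']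
    push_cast
    ring

theorem iter_lin (c : ℂ) (k : ℕ) {G : ℂ → ℂ} (hG : Differentiable ℂ G) (x : ℂ) :
    iteratedDeriv k (fun w => (w - c) * G w) x
      = (x - c) * iteratedDeriv k G x + k * iteratedDeriv (k - 1) G x := by
  cases k with
  | zero => simp
  | succ k =>
    rw [iter_lin_succ c k hG x]
    simp

/-- Leibniz rule for a quadratic factor. -/
theorem iter_quad (c d : ℂ) (k : ℕ) {G : ℂ → ℂ} (hG : Differentiable ℂ G) (x : ℂ) :
    iteratedDeriv k (fun w => (w - c) * ((w - d) * G w)) x
      = (x - c) * (x - d) * iteratedDeriv k G x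
        + k * ((x - c) + (x - d)) * iteratedDeriv (k - 1) G x
        + k * ((k : ℂ) - 1) * iteratedDeriv (k - 2) G x := by
  rw [iter_lin c k (entire_lin d hG) x, iter_lin d k hG x, iter_lin d (k - 1) hG x]
  cases k with
  | zero => simp; ring
  | succ k =>
    have : k + 1 - 1 - 1 = k + 1 - 2 := by omega
    rw [this]
    simp only [Nat.add_sub_cancel]
    push_cast
    ring

end Pool.Agent.ConjInterp
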