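import Pool.Agent.ConjInterp.Reduce

/-!
The equality of suprema under the endpoint domination hypothesis.
-/

set_option autoImplicit false

namespace Pool.Agent.ConjInterp

open Complex Set Metric ComplexConjugate Polynomial

/-- Pointwise bound at `x` by the value at the endpoint `e`. -/
theorem bound_by_endpoint {x e : ℝ} (hx : |x| ≤ 1) (he : e = 1 ∨ e = -1) (L : List ℂ)
    (hL : ∀ z ∈ L, ‖z‖ ≤ 1 ∧ |x - z.re| ≤ |e - z.re| ∧ |z.im| ≤ |e - z.re|)
    {h : ℂ → ℂ} (hh : Differentiable ℂ h)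
    (hb : ∀ w : ℂ, ‖w‖ ≤ 1 → ‖iteratedDeriv (2 * L.length) (fL L h) w‖ ≤ 1) {k : ℕ}
    (hk : k ≤ 2 * L.length) :
    ‖iteratedDeriv k (fL L h) x‖ ≤ 1 / (Nat.factorial (2 * L.length) : ℝ) *
      ‖iteratedDeriv k (fL L (fun _ => 1)) (e:ℂ)‖ := by
  have h1 := core hx (fun z => |e - z.re|) (fun z => ‖(e:ℂ) - z‖ ^ 2) L
    (by
      intro z hz
      obtain ⟨h1, h2, h3⟩ := hL z hz
      refine ⟨h1, h2, ?_, ?_⟩
      · rcases le_total |z.im| |x - z.re| with h4 | h4
        · exact Or.inr h4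
        · left
          have h5 : (x - z.re) ^ 2 ≤ z.im ^ 2 := sq_le_sq.2 h4
          have h6 : z.im ^ 2 = |z.im| * |z.im| := by rw [← sq, sq_abs]
          have h7 := mul_le_mul_of_nonneg_left h3 (abs_nonneg z.im)
          linarith
      have e1 : ∀ y : ℝ, ‖(y:ℂ) - z‖ ^ 2 = (y - z.re) ^ 2 + z.im ^ 2 := by
        intro y
        rw [← Complex.normSq_eq_norm_sq, Complex.normSq_apply]
        simp only [Complex.sub_re, Complex.sub_im, Complex.ofReal_re, Complex.ofReal_im]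
        ring
      rw [e1, e1]
      have := sq_le_sq.2 h2
      linarith) hh hb k hk
  refine h1.trans ?_
  apply mul_le_mul_of_nonneg_left _ (by positivity)
  rw [at_endpoint he L (fun z hz => (hL z hz).1) k, Complex.norm_real, Real.norm_eq_abs, abs_mul]
  have h2 : |e ^ k| = 1 := by
    rw [abs_pow]
    rcases he with rfl | rfl <;> simp
  rw [h2, one_mul]
  exact le_abs_self _

/-- The equality for all orders `k`, when every point of `[-1,1]` is dominated by an endpoint. -/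
theorem equality_of_endpoint (n k : ℕ) (z : Fin n → ℂ) (hn : 1 ≤ n) (hk : k ≤ n - 1)
    (hz : ∀ i, ‖z i‖ ≤ 1)
    (hc : ∀ w : ℂ, Nat.card {j : Fin n // z j = w} = Nat.card {j : Fin n // z j = conj w})
    (hev : ∀ r : ℝ, Even (Nat.card {j : Fin n // z j = (r : ℂ)}))
    (hE : ∀ x ∈ Set.Icc (-1 : ℝ) 1, ∃ e : ℝ, (e = 1 ∨ e = -1) ∧
      ∀ i, |x - (z i).re| ≤ |e - (z i).re| ∧ |(z i).im| ≤ |e - (z i).re|) :
    sSup (lset n k z) = (1 / (n.factorial : ℝ)) * sSup (rset n k z) := by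
  obtain ⟨L, hn2, hmem, hprod⟩ := pairs_of_fin z hc hev
  apply reduce hn z
  intro h hh hb x hx
  obtain ⟨e, he, hall⟩ := hE x hx
  have hfun : ∀ h : ℂ → ℂ, (fun w => (∏ j, (w - z j)) * h w) = fL L h := by
    intro h; funext w; rw [hprod w, fL_mul L h w]
  have hfun1 : (fun w => ∏ j, (w - z j)) = fL L (fun _ => 1) := by
    funext w; exact hprod w
  have hx1 : |x| ≤ 1 := abs_le.2 ⟨hx.1, hx.2⟩
  refine ⟨e, ?_, ?_⟩
  · rcases he with rfl | rfl <;> constructor <;> norm_num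
  · rw [hfun h, hfun1]
    rw [hfun h] at hb
    have h1 := bound_by_endpoint hx1 he L
      (by
        intro w hw
        obtain ⟨i, rfl⟩ := hmem w hw
        exact ⟨hz i, hall i⟩) hh (by rw [← hn2]; exact hb) (k := k) (by omega)
    rw [← hn2] at h1
    exact h1

end Pool.Agent.ConjInterp
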