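import Pool.Agent.ConjInterp.Main

/-!
From the interpolation conditions to the factorisation, and the final equality of suprema.
-/

set_option autoImplicit false

namespace Pool.Agent.ConjInterp

open Complex Set Metric ComplexConjugate Polynomial

/-- product of the linear factors `w - c`, `c ∈ l` -/
noncomputable def lp (l : List ℂ) (w : ℂ) : ℂ := (l.map (fun c => w - c)).prod

theorem lp_cons (c : ℂ) (l : List ℂ) (w : ℂ) : lp (c :: l) w = (w - c) * lp l w := by
  simp [lp]

theorem lp_entire (l : List ℂ) : Differentiable ℂ (lp l) := by
  induction l with
  | nil => exact differentiable_const _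
  | cons c l ih =>
    have : lp (c :: l) = fun w => (w - c) * lp l w := by funext w; exact lp_cons c l w
    rw [this]
    exact entire_lin c ih

theorem lp_vanish (l : List ℂ) : ∀ (w : ℂ) (m : ℕ), m < l.count w →
    iteratedDeriv m (lp l) w = 0 := by
  induction l with
  | nil => intro w m hm; simp at hm
  | cons c l ih =>
    intro w m hm
    have e : lp (c :: l) = fun w => (w - c) * lp l w := by funext w; exact lp_cons c l w
    rw [e, iter_lin c m (lp_entire l)]
    rcases eq_or_ne c w with rfl | hne
    · rw [List.count_cons_self] at hm
      rcases Nat.eq_zero_or_pos m with rfl | hpos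
      · simp
      · rw [ih c (m - 1) (by omega)]
        simp
    · rw [List.count_cons_of_ne hne] at hm
      rw [ih w m hm]
      rcases Nat.eq_zero_or_pos m with rfl | hpos
      · simp
      · rw [ih w (m - 1) (by omega)]
        simp

theorem factor (l : List ℂ) : ∀ {F : ℂ → ℂ}, Differentiable ℂ F →
    (∀ (w : ℂ) (m : ℕ), m < l.count w → iteratedDeriv m F w = 0) →
    ∃ h : ℂ → ℂ, Differentiable ℂ h ∧ F = fun w => lp l w * h w := by
  induction l with
  | nil =>
    intro F hF _
    exact ⟨F, hF, by funext w; simp [lp]⟩
  | cons c l ih =>
    intro F hF hv
    have hFc : F c = 0 := by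
      have := hv c 0 (by rw [List.count_cons_self]; omega)
      simpa using this
    set F1 : ℂ → ℂ := dslope F c with hF1
    have hF1d : Differentiable ℂ F1 := by
      rw [← differentiableOn_univ]
      exact (Complex.differentiableOn_dslope Filter.univ_mem).2 hF.differentiableOn
    have hfac : F = fun w => (w - c) * F1 w := by
      funext w
      have := sub_smul_dslope F c w
      rw [smul_eq_mul, hFc, sub_zero] at this
      exact this.symm
    have hv1 : ∀ (w : ℂ) (m : ℕ), m < l.count w → iteratedDeriv m F1 w = 0 := by
      intro w
      rcases eq_or_ne c w with rfl | hne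
      · intro m hm
        have h1 := hv c (m + 1) (by rw [List.count_cons_self]; omega)
        rw [hfac, iter_lin_succ c m hF1d, sub_self, zero_mul, zero_add] at h1
        rcases mul_eq_zero.1 h1 with h2 | h2
        · exfalso
          have : ((m:ℂ) + 1) ≠ 0 := by exact_mod_cast Nat.succ_ne_zero m
          exact this h2
        · exact h2
      · intro m
        induction m with
        | zero =>
          intro hm
          have h1 := hv w 0 (by rw [List.count_cons_of_ne hne]; exact hm)
          rw [iteratedDeriv_zero] at h1 ⊢
          rw [hfac] at h1
          rcases mul_eq_zero.1 h1 with h2 | h2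
          · exact absurd (sub_eq_zero.1 h2).symm hne
          · exact h2
        | succ m ihm =>
          intro hm
          have h1 := hv w (m + 1) (by rw [List.count_cons_of_ne hne]; exact hm)
          rw [hfac, iter_lin_succ c m hF1d, ihm (by omega), mul_zero, add_zero] at h1
          rcases mul_eq_zero.1 h1 with h2 | h2
          · exact absurd (sub_eq_zero.1 h2).symm hne
          · exact h2
    obtain ⟨h, hh, hFh⟩ := ih hF1d hv1
    refine ⟨h, hh, ?_⟩
    rw [hfac]
    funext w
    rw [lp_cons, hFh]
    ring

theorem fL_eq (L : List ℂ) (h : ℂ → ℂ) (w : ℂ) :
    fL L h w = lp (L ++ L.map conj) w * h w := by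
  induction L with
  | nil => simp [fL, lp]
  | cons z L ih =>
    change (w - z) * ((w - conj z) * fL L h w) = _
    rw [ih]
    simp only [lp, List.map_append, List.prod_append, List.map_cons, List.prod_cons,
      List.cons_append, List.map_map]
    ring

/-- A self-conjugate multiset with even real multiplicities is a union of conjugate pairs. -/
theorem exists_pairs : ∀ (N : ℕ) (s : Multiset ℂ), s.card = N →
    (∀ w : ℂ, s.count w = s.count (conj w)) → (∀ r : ℝ, Even (s.count (r:ℂ))) →
    ∃ L : List ℂ, s = ((L ++ L.map conj : List ℂ) : Multiset ℂ) := by
  intro N
  induction N using Nat.strong_induction_on with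
  | _ N ih =>
    intro s hs hc hev
    rcases s.empty_or_exists_mem with h0 | ⟨z, hz⟩
    · exact ⟨[], by simpa using h0⟩
    · -- the conjugate is in s.erase z
      have hz2 : conj z ∈ s.erase z := by
        rw [← Multiset.count_pos]
        by_cases hreal : conj z = z
        · rw [hreal, Multiset.count_erase_self]
          have hzr : z = ((z.re : ℝ) : ℂ) := (Complex.conj_eq_iff_re.1 hreal).symm
          have h1 := hev z.re
          rw [← hzr] at h1
          have h2 : 0 < s.count z := Multiset.count_pos.2 hz
          obtain ⟨r, hr⟩ := h1
          omega
        · rw [Multiset.count_erase_of_ne hreal, ← hc z]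
          exact Multiset.count_pos.2 hz
      set s' := (s.erase z).erase (conj z) with hs'
      have e1 : s = z ::ₘ conj z ::ₘ s' := by
        rw [hs', Multiset.cons_erase hz2, Multiset.cons_erase hz]
      have hcard : s'.card < N := by
        rw [← hs, e1]
        simp
      have hcnt : ∀ w, s.count w = s'.count w + (if w = conj z then 1 else 0)
          + (if w = z then 1 else 0) := by
        intro w
        conv_lhs => rw [e1]
        rw [Multiset.count_cons, Multiset.count_cons]
      have hc' : ∀ w : ℂ, s'.count w = s'.count (conj w) := by
        intro w
        have h1 := hc w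
        rw [hcnt w, hcnt (conj w)] at h1
        have a1 : (conj w = conj z) ↔ w = z := by
          constructor
          · intro h; simpa using congrArg conj h
          · rintro rfl; rfl
        have a2 : (conj w = z) ↔ w = conj z := by
          constructor
          · intro h; simpa using congrArg conj h
          · rintro rfl; simp
        rw [if_congr a1 rfl rfl, if_congr a2 rfl rfl] at h1
        omega
      have hev' : ∀ r : ℝ, Even (s'.count (r:ℂ)) := by
        intro r
        have h1 := hev r
        rw [hcnt (r:ℂ)] at h1
        have a1 : ((r:ℂ) = conj z) ↔ ((r:ℂ) = z) := by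
          constructor
          · intro h
            have := congrArg conj h
            simpa using this
          · intro h
            have := congrArg conj h
            simpa using this
        rw [if_congr a1 rfl rfl] at h1
        by_cases h : (r:ℂ) = z
        · rw [if_pos h] at h1
          have : s'.count (r:ℂ) + 1 + 1 = s'.count (r:ℂ) + 2 := by ring
          rw [this] at h1
          exact (Nat.even_add.1 h1).2 (by decide)
        · rw [if_neg h] at h1
          simpa using h1
      obtain ⟨L, hL⟩ := ih s'.card hcard s' rfl hc' hev'
      refine ⟨z :: L, ?_⟩
      rw [e1, hL]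
      simp only [List.map_cons, List.cons_append, Multiset.cons_coe]
      rw [Multiset.coe_eq_coe]
      refine List.Perm.cons z ?_
      exact (List.perm_middle).symm

end Pool.Agent.ConjInterp
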