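import Pool.Agent.ConjInterp.Core

/-!
The majorant: induction over the list of conjugate pairs.
-/

set_option autoImplicit false

namespace Pool.Agent.ConjInterp

open Complex Set Metric ComplexConjugate

/-- The real polynomial with the conjugate pairs `z, conj z`, `z ∈ L`, as roots, times `h`. -/
noncomputable def fL : List ℂ → (ℂ → ℂ) → ℂ → ℂ
  | [], h => h
  | z :: L, h => fun w => (w - z) * ((w - conj z) * fL L h w)

/-- Majorant of the `k`-th derivative. -/
noncomputable def Bd (α q : ℂ → ℝ) : List ℂ → ℕ → ℝ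
  | [], k => if k = 0 then 1 else 0
  | z :: L, k => q z * Bd α q L k + k * (2 * α z) * Bd α q L (k - 1)
      + k * ((k:ℝ) - 1) * Bd α q L (k - 2)

theorem fL_entire (L : List ℂ) {h : ℂ → ℂ} (hh : Differentiable ℂ h) :
    Differentiable ℂ (fL L h) := by
  induction L with
  | nil => exact hh
  | cons z L ih => exact entire_lin z (entire_lin (conj z) ih)

theorem Bd_zero_of_lt (α q : ℂ → ℝ) (L : List ℂ) : ∀ k, 2 * L.length < k → Bd α q L k = 0 := by
  induction L with
  | nil =>
    intro k hk
    have : k ≠ 0 := by simpa using hk.ne'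
    simp [Bd, this]
  | cons z L ih =>
    intro k hk
    rw [List.length_cons] at hk
    rw [Bd, ih k (by omega), ih (k - 1) (by omega), ih (k - 2) (by omega)]
    ring

theorem Bd_top (α q : ℂ → ℝ) (L : List ℂ) :
    Bd α q L (2 * L.length) = (Nat.factorial (2 * L.length) : ℝ) := by
  induction L with
  | nil => simp [Bd]
  | cons z L ih =>
    have e : 2 * (z :: L).length = 2 * L.length + 2 := by rw [List.length_cons]; ring
    rw [e, Bd, Bd_zero_of_lt α q L _ (by omega), Bd_zero_of_lt α q L (2 * L.length + 2 - 1)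
      (by omega)]
    rw [show 2 * L.length + 2 - 2 = 2 * L.length by omega, ih]
    rw [Nat.factorial_succ, Nat.factorial_succ]
    push_cast
    ring

theorem Bd_nonneg {α q : ℂ → ℝ} (L : List ℂ) (hα : ∀ z ∈ L, 0 ≤ α z) (hq : ∀ z ∈ L, 0 ≤ q z) :
    ∀ k, 0 ≤ Bd α q L k := by
  induction L with
  | nil => intro k; rw [Bd]; split_ifs <;> norm_num
  | cons z L ih =>
    intro k
    have ih' := ih (fun w hw => hα w (List.mem_cons_of_mem _ hw))
      (fun w hw => hq w (List.mem_cons_of_mem _ hw))
    rw [Bd]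
    have h1 := hα z List.mem_cons_self
    have h2 := hq z List.mem_cons_self
    have h3 : 0 ≤ (k:ℝ) * ((k:ℝ) - 1) := by
      rcases Nat.eq_zero_or_pos k with hk | hk
      · simp [hk]
      · have : (1:ℝ) ≤ k := by exact_mod_cast hk
        have : 0 ≤ (k:ℝ) - 1 := by linarith
        positivity
    have := ih' k
    have := ih' (k - 1)
    have := ih' (k - 2)
    positivity

/-- The general majorant: for all conjugate pairs in the disc, `x ∈ [-1,1]`. -/
theorem core {x : ℝ} (hx : |x| ≤ 1) (α q : ℂ → ℝ) : ∀ L : List ℂ,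
    (∀ z ∈ L, ‖z‖ ≤ 1 ∧ |x - z.re| ≤ α z ∧
      ((x - z.re) ^ 2 + z.im ^ 2 ≤ 2 * |z.im| * α z ∨ |z.im| ≤ |x - z.re|) ∧
      ‖(x:ℂ) - z‖ ^ 2 ≤ q z) →
    ∀ {h : ℂ → ℂ}, Differentiable ℂ h → ∀ {C : ℝ},
    (∀ w, ‖w‖ ≤ 1 → ‖iteratedDeriv (2 * L.length) (fL L h) w‖ ≤ C) →
    ∀ k ≤ 2 * L.length,
      ‖iteratedDeriv k (fL L h) x‖ ≤ C / (Nat.factorial (2 * L.length) : ℝ) * Bd α q L k := by
  have hx' : ‖(x:ℂ)‖ ≤ 1 := by rw [Complex.norm_real]; exact hx
  intro L
  induction L with
  | nil =>
    intro _ h hh C hC k hk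
    have hk0 : k = 0 := by simpa using hk
    subst hk0
    have := hC x hx'
    simpa [Bd, fL] using this
  | cons z L ih =>
    intro hL h hh C hC k hk
    have hG : Differentiable ℂ (fL L h) := fL_entire L hh
    have hC0 : 0 ≤ C := (norm_nonneg _).trans (hC 0 (by simp))
    obtain ⟨hz, hz1, hz2, hz3⟩ := hL z List.mem_cons_self
    have hL' := fun w hw => hL w (List.mem_cons_of_mem z hw)
    have hα : 0 ≤ α z := (abs_nonneg _).trans hz1
    have hq : 0 ≤ q z := (sq_nonneg _).trans hz3
    set m := 2 * L.length with hm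
    have e : 2 * (z :: L).length = m + 2 := by rw [List.length_cons]; ring
    rw [e] at hC hk ⊢
    -- bound for the quotient
    have hC1 : ∀ w, ‖w‖ ≤ 1 → ‖iteratedDeriv m (fL L h) w‖ ≤ C / (((m:ℝ) + 2) * (m + 1)) :=
      fun w hw => remove_pair hz m hG hC hw
    have IH := ih hL' hh hC1
    have hfac : C / (((m:ℝ) + 2) * (m + 1)) / (Nat.factorial m : ℝ)
        = C / (Nat.factorial (m + 2) : ℝ) := by
      rw [Nat.factorial_succ, Nat.factorial_succ]
      push_cast
      rw [div_div]
      congr 1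
      ring
    rw [hfac] at IH
    set c := C / (Nat.factorial (m + 2) : ℝ) with hc
    have hc0 : 0 ≤ c := by positivity
    have hBnn := Bd_nonneg (α := α) (q := q) L
      (fun w hw => (abs_nonneg _).trans (hL' w hw).2.1)
      (fun w hw => (sq_nonneg _).trans (hL' w hw).2.2.2)
    -- norms of the coefficients
    have hQ : ‖((x:ℂ) - z) * ((x:ℂ) - conj z)‖ ≤ q z := by
      have h1 : ‖(x:ℂ) - conj z‖ = ‖(x:ℂ) - z‖ := by
        rw [← RCLike.norm_conj ((x:ℂ) - z)]
        simp
      rw [norm_mul, h1, ← sq]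
      exact hz3
    have hQ' : ‖((x:ℂ) - z) + ((x:ℂ) - conj z)‖ ≤ 2 * α z := by
      have : ((x:ℂ) - z) + ((x:ℂ) - conj z) = ((2 * (x - z.re) : ℝ) : ℂ) := by
        apply Complex.ext
        · simp; ring
        · simp
      rw [this, Complex.norm_real, Real.norm_eq_abs, abs_mul, abs_two]
      linarith
    have hkk : ∀ k : ℕ, ‖(k:ℂ) * ((k:ℂ) - 1)‖ = (k:ℝ) * ((k:ℝ) - 1) := by
      intro k
      have h3 : 0 ≤ (k:ℝ) * ((k:ℝ) - 1) := by
        rcases Nat.eq_zero_or_pos k with hk | hk
        · simp [hk]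
        · have : (1:ℝ) ≤ k := by exact_mod_cast hk
          have : 0 ≤ (k:ℝ) - 1 := by linarith
          positivity
      have : (k:ℂ) * ((k:ℂ) - 1) = (((k:ℝ) * ((k:ℝ) - 1) : ℝ) : ℂ) := by push_cast; ring
      rw [this, Complex.norm_real, Real.norm_of_nonneg h3]
    change ‖iteratedDeriv k (fun w => (w - z) * ((w - conj z) * fL L h w)) x‖ ≤ c * Bd α q (z :: L) k
    rcases Nat.lt_or_ge m k with hlt | hge
    · -- k = m+1 or m+2
      rcases Nat.lt_or_ge (m + 1) k with hlt2 | hge2
      · -- k = m + 2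
        have hk2 : k = m + 2 := by omega
        subst hk2
        have h1 := hC x hx'
        have hB : Bd α q (z :: L) (m + 2) = (Nat.factorial (m + 2) : ℝ) := by
          have := Bd_top α q (z :: L)
          rwa [e] at this
        rw [hB, hc, div_mul_cancel₀ _ (by positivity)]
        exact h1
      · -- k = m + 1
        have hk1 : k = m + 1 := by omega
        subst hk1
        have hT := t_lemma hz m hG hC hx hz1 hz2
        have hsplit : iteratedDeriv (m + 1) (fun w => (w - z) * ((w - conj z) * fL L h w)) (x:ℂ)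
            = Xfun z m (fL L h) x
              + ((m:ℂ) + 1) * m * iteratedDeriv (m - 1) (fL L h) (x:ℂ) := by
          rw [iter_quad z (conj z) (m + 1) hG, Xfun]
          rw [show m + 1 - 1 = m by omega, show m + 1 - 2 = m - 1 by omega]
          push_cast
          ring
        rw [hsplit]
        refine (norm_add_le _ _).trans ?_
        have hB : Bd α q (z :: L) (m + 1)
            = ((m:ℝ) + 1) * (2 * α z) * (Nat.factorial m : ℝ)
              + ((m:ℝ) + 1) * m * Bd α q L (m - 1) := by
          rw [Bd, Bd_zero_of_lt α q L (m + 1) (by omega), show m + 1 - 1 = m by omega,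
            show m + 1 - 2 = m - 1 by omega, hm, Bd_top α q L]
          push_cast
          ring
        rw [hB, mul_add]
        apply add_le_add
        · refine hT.trans (le_of_eq ?_)
          rw [hc, Nat.factorial_succ, Nat.factorial_succ]
          push_cast
          have h1 : (m:ℝ) + 1 ≠ 0 := by positivity
          have h2 : (m:ℝ) + 2 ≠ 0 := by positivity
          have h3 : (Nat.factorial m : ℝ) ≠ 0 := by positivity
          field_simp
          ring
        · rw [norm_mul]
          have hn : ‖((m:ℂ) + 1) * m‖ = ((m:ℝ) + 1) * m := by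
            have : ((m:ℂ) + 1) * m = ((((m:ℝ) + 1) * m : ℝ) : ℂ) := by push_cast; ring
            rw [this, Complex.norm_real, Real.norm_of_nonneg (by positivity)]
          rw [hn]
          have h1 := IH (m - 1) (by omega)
          calc ((m:ℝ) + 1) * m * ‖iteratedDeriv (m - 1) (fL L h) (x:ℂ)‖
              ≤ ((m:ℝ) + 1) * m * (c * Bd α q L (m - 1)) :=
                mul_le_mul_of_nonneg_left h1 (by positivity)
            _ = c * (((m:ℝ) + 1) * m * Bd α q L (m - 1)) := by ring
    · -- k ≤ m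
      rw [iter_quad z (conj z) k hG, Bd]
      have h0 := IH k hge
      have h1 := IH (k - 1) (by omega)
      have h2 := IH (k - 2) (by omega)
      have hn1 : ‖((k:ℂ)) * (((x:ℂ) - z) + ((x:ℂ) - conj z))‖ ≤ k * (2 * α z) := by
        rw [norm_mul, Complex.norm_natCast]
        exact mul_le_mul_of_nonneg_left hQ' (by positivity)
      calc ‖((x:ℂ) - z) * ((x:ℂ) - conj z) * iteratedDeriv k (fL L h) x
          + k * (((x:ℂ) - z) + ((x:ℂ) - conj z)) * iteratedDeriv (k - 1) (fL L h) x
          + k * ((k:ℂ) - 1) * iteratedDeriv (k - 2) (fL L h) x‖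
          ≤ ‖((x:ℂ) - z) * ((x:ℂ) - conj z) * iteratedDeriv k (fL L h) x‖
          + ‖k * (((x:ℂ) - z) + ((x:ℂ) - conj z)) * iteratedDeriv (k - 1) (fL L h) x‖
          + ‖k * ((k:ℂ) - 1) * iteratedDeriv (k - 2) (fL L h) x‖ := norm_add₃_le
        _ ≤ q z * (c * Bd α q L k) + k * (2 * α z) * (c * Bd α q L (k - 1))
            + k * ((k:ℝ) - 1) * (c * Bd α q L (k - 2)) := by
            rw [norm_mul (((x:ℂ) - z) * ((x:ℂ) - conj z)),
              norm_mul ((k:ℂ) * (((x:ℂ) - z) + ((x:ℂ) - conj z))),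
              norm_mul ((k:ℂ) * ((k:ℂ) - 1)), hkk k]
            have hkk0 : 0 ≤ (k:ℝ) * ((k:ℝ) - 1) := by rw [← hkk k]; exact norm_nonneg _
            apply add_le_add (add_le_add _ _)
            · exact mul_le_mul_of_nonneg_left h2 hkk0
            · exact mul_le_mul hQ h0 (norm_nonneg _) hq
            · exact mul_le_mul hn1 h1 (norm_nonneg _) (by positivity)
        _ = c * (q z * Bd α q L k + k * (2 * α z) * Bd α q L (k - 1)
            + k * ((k:ℝ) - 1) * Bd α q L (k - 2)) := by ring

/-- At the endpoint `e = ±1` the majorant is attained by the polynomial itself. -/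
theorem at_endpoint {e : ℝ} (he : e = 1 ∨ e = -1) (L : List ℂ) (hL : ∀ z ∈ L, ‖z‖ ≤ 1) :
    ∀ k, iteratedDeriv k (fL L (fun _ => 1)) (e:ℂ)
      = ((e ^ k * Bd (fun z => |e - z.re|) (fun z => ‖(e:ℂ) - z‖ ^ 2) L k : ℝ) : ℂ) := by
  induction L with
  | nil =>
    intro k
    rw [fL, Bd]
    cases k with
    | zero => simp
    | succ k =>
      have : iteratedDeriv (k + 1) (fun _ : ℂ => (1:ℂ)) (e:ℂ) = 0 := by
        rw [iteratedDeriv_const]
        simp
      rw [this]
      simp
  | cons z L ih =>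
    intro k
    have hz := hL z List.mem_cons_self
    have ih' := ih (fun w hw => hL w (List.mem_cons_of_mem _ hw))
    have hG : Differentiable ℂ (fL L (fun _ => 1)) := fL_entire L (differentiable_const 1)
    change iteratedDeriv k (fun w => (w - z) * ((w - conj z) * fL L (fun _ => 1) w)) (e:ℂ) = _
    rw [iter_quad z (conj z) k hG, ih' k, ih' (k - 1), ih' (k - 2), Bd]
    have hre : |z.re| ≤ 1 := (Complex.abs_re_le_norm z).trans hz
    have hre' := abs_le.1 hre
    have h1 : ((e:ℂ) - z) * ((e:ℂ) - conj z) = ((‖(e:ℂ) - z‖ ^ 2 : ℝ) : ℂ) := by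
      have : (e:ℂ) - conj z = conj ((e:ℂ) - z) := by simp
      rw [this, Complex.mul_conj, Complex.normSq_eq_norm_sq]
    have h2 : ((e:ℂ) - z) + ((e:ℂ) - conj z) = ((e * (2 * |e - z.re|) : ℝ) : ℂ) := by
      have habs : e * |e - z.re| = e - z.re := by
        rcases he with rfl | rfl
        · rw [abs_of_nonneg (by linarith [hre'.2])]; ring
        · rw [abs_of_nonpos (by linarith [hre'.1])]; ring
      have h3 : e * (2 * |e - z.re|) = 2 * (e - z.re) := by
        calc e * (2 * |e - z.re|) = 2 * (e * |e - z.re|) := by ring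
          _ = 2 * (e - z.re) := by rw [habs]
      rw [h3]
      apply Complex.ext
      · simp; ring
      · simp
    have he2 : e ^ 2 = 1 := by rcases he with rfl | rfl <;> norm_num
    rw [h1, h2]
    rcases k with _ | _ | k
    · simp
    · simp
      ring
    · simp only [Nat.add_sub_cancel, show k + 1 + 1 - 2 = k by omega]
      have h4 : e ^ (k + 1 + 1) = e ^ k := by
        rw [show k + 1 + 1 = k + 2 from rfl, pow_add, he2, mul_one]
      have h5 : e ^ (k + 1) * e = e ^ k := by
        rw [← pow_succ, h4]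
      have h6 : e ^ (k + 1) = e ^ k * e := pow_succ e k
      rw [h4]
      push_cast
      have h7 : (e:ℂ) ^ (k + 1) * (e:ℂ) = (e:ℂ) ^ k := by exact_mod_cast congrArg Complex.ofReal h5
      have h8 : (e:ℂ) * (2 * ((|e - z.re| : ℝ) : ℂ)) * ((e:ℂ) ^ (k + 1)) = (e:ℂ) ^ k * (2 * ((|e - z.re| : ℝ) : ℂ)) := by
        rw [← h7]; ring
      linear_combination ((k:ℂ) + 1 + 1) *
        ((Bd (fun z => |e - z.re|) (fun z => ‖(e:ℂ) - z‖ ^ 2) L (k + 1) : ℝ) : ℂ) * h8

end Pool.Agent.ConjInterp
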