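import Pool.Agent.ConjInterp.Deriv

/-!
Removing one node, and the estimate for a conjugate pair in the case `k = n - 1`.
-/

set_option autoImplicit false

namespace Pool.Agent.ConjInterp

open Complex Set MeasureTheory intervalIntegral

theorem hasDerivAt_path (x ρ : ℂ) (s : ℝ) : HasDerivAt (fun t : ℝ => x + (t : ℂ) * ρ) ρ s := by
  have h := (Complex.ofRealCLM.hasDerivAt (x := s)).mul_const ρ
  have h2 := h.const_add x
  simpa using h2

theorem hasDerivAt_along {H : ℂ → ℂ} {H' : ℂ} (x ρ : ℂ) (s : ℝ)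
    (h : HasDerivAt H H' (x + (s : ℂ) * ρ)) :
    HasDerivAt (fun t : ℝ => H (x + (t : ℂ) * ρ)) (ρ * H') s := by
  have := HasDerivAt.scomp s h (hasDerivAt_path x ρ s)
  simpa [Function.comp_def, smul_eq_mul] using this

theorem continuous_along {H : ℂ → ℂ} (hH : Differentiable ℂ H) (x ρ : ℂ) :
    Continuous (fun t : ℝ => H (x + (t : ℂ) * ρ)) :=
  hH.continuous.comp (by fun_prop)

/-- If `F = (w - z) F₁` then `F₁^(m)(x) = ∫₀¹ (1-s)^m F^(m+1)(x + s(z-x)) ds`. -/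
theorem int_formula (z x : ℂ) (m : ℕ) {F1 : ℂ → ℂ} (hF : Differentiable ℂ F1) :
    iteratedDeriv m F1 x = ∫ s in (0:ℝ)..1, ((1 - (s:ℂ)) ^ m) *
      iteratedDeriv (m + 1) (fun w => (w - z) * F1 w) (x + (s:ℂ) * (z - x)) := by
  have hderiv : ∀ s : ℝ, HasDerivAt
      (fun t : ℝ => -((1 - (t:ℂ)) ^ (m + 1) * iteratedDeriv m F1 (x + (t:ℂ) * (z - x))))
      (((1 - (s:ℂ)) ^ m) *
        iteratedDeriv (m + 1) (fun w => (w - z) * F1 w) (x + (s:ℂ) * (z - x))) s := by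
    intro s
    have h1 : HasDerivAt (fun t : ℝ => (1 - (t:ℂ))) (-1) s := by
      have := (Complex.ofRealCLM.hasDerivAt (x := s)).const_sub (1:ℂ)
      simpa using this
    have h2 : HasDerivAt (fun t : ℝ => (1 - (t:ℂ)) ^ (m + 1))
        (((m + 1 : ℕ) : ℂ) * (1 - (s:ℂ)) ^ m * (-1)) s := by
      have := h1.fun_pow (m + 1)
      simpa using this
    have h3 := hasDerivAt_along x (z - x) s (hasDerivAt_iter hF m (x + (s:ℂ) * (z - x)))
    have h4 := (h2.fun_mul h3).fun_neg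
    have heq : ((1 - (s:ℂ)) ^ m) *
        iteratedDeriv (m + 1) (fun w => (w - z) * F1 w) (x + (s:ℂ) * (z - x))
        = -(((m + 1 : ℕ) : ℂ) * (1 - (s:ℂ)) ^ m * (-1) * iteratedDeriv m F1 (x + (s:ℂ) * (z - x))
          + (1 - (s:ℂ)) ^ (m + 1) *
            ((z - x) * iteratedDeriv (m + 1) F1 (x + (s:ℂ) * (z - x)))) := by
      rw [iter_lin_succ z m hF]
      push_cast
      ring
    rw [heq]
    exact h4
  have hcont : Continuous (fun s : ℝ => ((1 - (s:ℂ)) ^ m) *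
      iteratedDeriv (m + 1) (fun w => (w - z) * F1 w) (x + (s:ℂ) * (z - x))) :=
    ((continuous_const.sub Complex.continuous_ofReal).pow m).mul
      (continuous_along (entire_iteratedDeriv (entire_lin z hF) (m + 1)) x (z - x))
  rw [integral_eq_sub_of_hasDerivAt (fun s _ => hderiv s) (hcont.intervalIntegrable 0 1)]
  simp

theorem mem_ball_path {x z : ℂ} (hx : ‖x‖ ≤ 1) (hz : ‖z‖ ≤ 1) {s : ℝ} (hs : s ∈ Icc (0:ℝ) 1) :
    ‖x + (s:ℂ) * (z - x)‖ ≤ 1 := by
  have : x + (s:ℂ) * (z - x) = ((1 - s : ℝ) : ℂ) * x + (s:ℂ) * z := by push_cast; ring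
  rw [this]
  calc ‖((1 - s : ℝ) : ℂ) * x + (s:ℂ) * z‖ ≤ ‖((1 - s : ℝ) : ℂ) * x‖ + ‖(s:ℂ) * z‖ := norm_add_le _ _
    _ = (1 - s) * ‖x‖ + s * ‖z‖ := by
        rw [norm_mul, norm_mul, Complex.norm_real, Complex.norm_real, Real.norm_of_nonneg hs.1,
          Real.norm_of_nonneg (by linarith [hs.2])]
    _ ≤ (1 - s) * 1 + s * 1 := by
        have h1 : 0 ≤ 1 - s := by linarith [hs.2]
        have := mul_le_mul_of_nonneg_left hx h1
        have := mul_le_mul_of_nonneg_left hz hs.1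
        linarith
    _ = 1 := by ring

theorem integral_one_sub_pow (m : ℕ) : ∫ s in (0:ℝ)..1, (1 - s) ^ m = 1 / ((m:ℝ) + 1) := by
  have := intervalIntegral.integral_comp_sub_left (fun s : ℝ => s ^ m) (1:ℝ) (a := 0) (b := 1)
  rw [this]
  simp [integral_pow]

/-- Removing one node: the bound for the derivative of the quotient. -/
theorem remove_one {z : ℂ} (hz : ‖z‖ ≤ 1) (m : ℕ) {F1 : ℂ → ℂ} (hF : Differentiable ℂ F1) {C : ℝ}
    (hC : ∀ w, ‖w‖ ≤ 1 → ‖iteratedDeriv (m + 1) (fun w => (w - z) * F1 w) w‖ ≤ C) {x : ℂ}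
    (hx : ‖x‖ ≤ 1) : ‖iteratedDeriv m F1 x‖ ≤ C / ((m:ℝ) + 1) := by
  rw [int_formula z x m hF]
  have hbound : ∀ s ∈ Icc (0:ℝ) 1, ‖((1 - (s:ℂ)) ^ m) *
      iteratedDeriv (m + 1) (fun w => (w - z) * F1 w) (x + (s:ℂ) * (z - x))‖
        ≤ (1 - s) ^ m * C := by
    intro s hs
    rw [norm_mul, norm_pow]
    have h1 : ‖(1:ℂ) - (s:ℂ)‖ = 1 - s := by
      have : (1:ℂ) - (s:ℂ) = ((1 - s : ℝ) : ℂ) := by push_cast; ring
      rw [this, Complex.norm_real, Real.norm_of_nonneg (by linarith [hs.2])]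
    rw [h1]
    exact mul_le_mul_of_nonneg_left (hC _ (mem_ball_path hx hz hs))
      (pow_nonneg (by linarith [hs.2]) _)
  calc ‖∫ s in (0:ℝ)..1, ((1 - (s:ℂ)) ^ m) *
      iteratedDeriv (m + 1) (fun w => (w - z) * F1 w) (x + (s:ℂ) * (z - x))‖
      ≤ ∫ s in (0:ℝ)..1, (1 - s) ^ m * C := by
        apply intervalIntegral.norm_integral_le_of_norm_le (by norm_num)
        · exact Filter.Eventually.of_forall (fun s hs => hbound s ⟨hs.1.le, hs.2⟩)
        · apply Continuous.intervalIntegrable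
          fun_prop
    _ = C / ((m:ℝ) + 1) := by
        rw [intervalIntegral.integral_mul_const, integral_one_sub_pow]
        ring

end Pool.Agent.ConjInterp
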