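import Pool.Agent.ConjInterp.Final

/-!
The reduction of the equality of suprema to a pointwise bound.
-/

set_option autoImplicit false

namespace Pool.Agent.ConjInterp

open Complex Set Metric ComplexConjugate Polynomial

theorem iter_poly (p : Polynomial ℂ) (m : ℕ) :
    iteratedDeriv m (fun w => p.eval w) = fun w => (derivative^[m] p).eval w := by
  induction m with
  | zero => rfl
  | succ m ih =>
    rw [iteratedDeriv_succ, ih, Function.iterate_succ_apply']
    funext w
    exact Polynomial.deriv _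

theorem poly_entire (p : Polynomial ℂ) : Differentiable ℂ (fun w => p.eval w) :=
  p.differentiable

theorem iter_poly_zero {p : Polynomial ℂ} {n : ℕ} (hn : 1 ≤ n) (hp : p.degree < (n : WithBot ℕ)) (w : ℂ) :
    iteratedDeriv n (fun w => p.eval w) w = 0 := by
  rw [iter_poly]
  have : p.natDegree < n := by
    rcases eq_or_ne p 0 with h | h
    · subst h; simp; omega
    · exact (Polynomial.natDegree_lt_iff_degree_lt h).2 hp
  rw [Polynomial.iterate_derivative_eq_zero this]
  simp

theorem count_ofFn {n : ℕ} (z : Fin n → ℂ) (w : ℂ) :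
    (List.ofFn z).count w = Nat.card {j : Fin n // z j = w} := by
  have h1 : ((List.ofFn z : List ℂ) : Multiset ℂ) = (Finset.univ : Finset (Fin n)).val.map z := by
    rw [Fin.univ_val_map]
  rw [← Multiset.coe_count, h1, Multiset.count_map, Nat.card_eq_fintype_card, Fintype.card_subtype]
  simp only [eq_comm (a := w)]
  rfl

theorem prod_eq_lp {n : ℕ} (z : Fin n → ℂ) (w : ℂ) :
    ∏ j, (w - z j) = lp (List.ofFn z) w := by
  rw [lp, List.map_ofFn, List.prod_ofFn]
  rfl

theorem lp_perm {l l' : List ℂ} (h : l.Perm l') (w : ℂ) : lp l w = lp l' w := by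
  rw [lp, lp]
  exact (h.map _).prod_eq

/-- the set on the left-hand side -/
def lset (n k : ℕ) (z : Fin n → ℂ) : Set ℝ :=
  {t : ℝ | ∃ g : ℂ → ℂ, ∃ p : Polynomial ℂ, ∃ x : ℝ,
          Differentiable ℂ g ∧
          (∀ w : ℂ, ‖w‖ ≤ 1 → ‖iteratedDeriv n g w‖ ≤ 1) ∧
          p.degree < (n : WithBot ℕ) ∧
          (∀ i : Fin n, ∀ m : ℕ, m < Nat.card {j : Fin n // z j = z i} →
              iteratedDeriv m (fun w => g w - p.eval w) (z i) = 0) ∧
          x ∈ Set.Icc (-1 : ℝ) 1 ∧
          t = ‖iteratedDeriv k (fun w => g w - p.eval w) (x : ℂ)‖}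

/-- the set on the right-hand side -/
def rset (n k : ℕ) (z : Fin n → ℂ) : Set ℝ :=
  {t : ℝ | ∃ x : ℝ, x ∈ Set.Icc (-1 : ℝ) 1 ∧
            t = ‖iteratedDeriv k (fun w : ℂ => ∏ j, (w - z j)) (x : ℂ)‖}

theorem prod_entire {n : ℕ} (z : Fin n → ℂ) : Differentiable ℂ (fun w : ℂ => ∏ j, (w - z j)) := by
  have : (fun w : ℂ => ∏ j, (w - z j)) = lp (List.ofFn z) := by
    funext w; exact prod_eq_lp z w
  rw [this]
  exact lp_entire _

theorem rset_bdd (n k : ℕ) (z : Fin n → ℂ) : BddAbove (rset n k z) := by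
  have h1 : rset n k z = (fun x : ℝ => ‖iteratedDeriv k (fun w : ℂ => ∏ j, (w - z j)) (x : ℂ)‖) ''
      Set.Icc (-1 : ℝ) 1 := by
    ext t
    constructor
    · rintro ⟨x, hx, rfl⟩; exact ⟨x, hx, rfl⟩
    · rintro ⟨x, hx, rfl⟩; exact ⟨x, hx, rfl⟩
  rw [h1]
  apply IsCompact.bddAbove_image isCompact_Icc
  apply Continuous.continuousOn
  exact (((entire_iteratedDeriv (prod_entire z) k).continuous).comp Complex.continuous_ofReal).norm

theorem rset_nonempty (n k : ℕ) (z : Fin n → ℂ) : (rset n k z).Nonempty :=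
  ⟨_, 0, ⟨by norm_num, by norm_num⟩, rfl⟩

/-- the lower bound -/
theorem mem_lset {n k : ℕ} (hn : 1 ≤ n) (z : Fin n → ℂ) {t : ℝ} (ht : t ∈ rset n k z) :
    (1 / (n.factorial : ℝ)) * t ∈ lset n k z := by
  obtain ⟨x, hx, rfl⟩ := ht
  set q : Polynomial ℂ := ∏ j, (X - C (z j)) with hq
  have hqm : q.Monic := Polynomial.monic_prod_of_monic _ _ (fun j _ => Polynomial.monic_X_sub_C _)
  have hqd : q.degree = n := by
    rw [hq, Polynomial.degree_prod]
    simp
  set c : ℂ := 1 / (n.factorial : ℂ) with hc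
  have hfac : (n.factorial : ℂ) ≠ 0 := by exact_mod_cast n.factorial_ne_zero
  have hsub : ∀ w : ℂ, (C c * X ^ n : Polynomial ℂ).eval w - (C c * (X ^ n - q)).eval w
      = c * ∏ j, (w - z j) := by
    intro w
    simp only [eval_mul, eval_C, eval_pow, eval_X, eval_sub, hq, eval_prod]
    ring
  have hfun : (fun w => (C c * X ^ n : Polynomial ℂ).eval w - (C c * (X ^ n - q)).eval w)
      = fun w => c * lp (List.ofFn z) w := by
    funext w; rw [hsub w, prod_eq_lp]
  refine ⟨fun w => (C c * X ^ n : Polynomial ℂ).eval w, C c * (X ^ n - q), x, poly_entire _, ?_, ?_,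
    ?_, hx, ?_⟩
  · intro w _
    rw [iter_poly]
    simp only [Polynomial.iterate_derivative_C_mul, Polynomial.iterate_derivative_X_pow_eq_C_mul,
      Nat.descFactorial_self, Nat.sub_self, pow_zero, mul_one, eval_mul, eval_C, hc]
    rw [one_div, inv_mul_cancel₀ hfac]
    simp
  · have h1 : (X ^ n - q).degree < (n : WithBot ℕ) := by
      have := Polynomial.degree_sub_lt_left (p := (X ^ n : Polynomial ℂ)) (q := q)
        (by rw [hqd, degree_X_pow]) (pow_ne_zero _ X_ne_zero)
        (by rw [hqm.leadingCoeff, leadingCoeff_X_pow])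
      rwa [degree_X_pow] at this
    have hc0 : c ≠ 0 := by rw [hc]; exact one_div_ne_zero hfac
    rw [Polynomial.degree_C_mul hc0]
    exact h1
  · intro i m hm
    rw [hfun, iteratedDeriv_const_mul_field, lp_vanish, mul_zero]
    rw [count_ofFn]
    exact hm
  · have h2 : (fun w => (C c * X ^ n : Polynomial ℂ).eval w - (C c * (X ^ n - q)).eval w)
      = fun w => c * ∏ j, (w - z j) := by funext w; exact hsub w
    rw [h2, iteratedDeriv_const_mul_field, norm_mul]
    congr 1
    rw [hc, norm_div, norm_one]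
    simp

/-- The equality of suprema follows from a pointwise bound on the functions `∏ (w - z_j) · h`. -/
theorem reduce {n k : ℕ} (hn : 1 ≤ n) (z : Fin n → ℂ)
    (hB : ∀ h : ℂ → ℂ, Differentiable ℂ h →
      (∀ w : ℂ, ‖w‖ ≤ 1 → ‖iteratedDeriv n (fun w => (∏ j, (w - z j)) * h w) w‖ ≤ 1) →
      ∀ x ∈ Set.Icc (-1:ℝ) 1, ∃ y ∈ Set.Icc (-1:ℝ) 1,
        ‖iteratedDeriv k (fun w => (∏ j, (w - z j)) * h w) (x:ℂ)‖ ≤
          (1 / (n.factorial : ℝ)) * ‖iteratedDeriv k (fun w => ∏ j, (w - z j)) (y:ℂ)‖) :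
    sSup (lset n k z) = (1 / (n.factorial : ℝ)) * sSup (rset n k z) := by
  have hfac : (0:ℝ) < (n.factorial : ℝ) := by exact_mod_cast n.factorial_pos
  have hc : (0:ℝ) < 1 / (n.factorial : ℝ) := by positivity
  have hub : ∀ t ∈ lset n k z, t ≤ (1 / (n.factorial : ℝ)) * sSup (rset n k z) := by
    rintro t ⟨g, p, x, hg, hgn, hp, hv, hx, rfl⟩
    set F : ℂ → ℂ := fun w => g w - p.eval w with hF
    have hFd : Differentiable ℂ F := hg.sub (poly_entire p)
    have hv' : ∀ (w : ℂ) (m : ℕ), m < (List.ofFn z).count w → iteratedDeriv m F w = 0 := by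
      intro w m hm
      have hpos : 0 < (List.ofFn z).count w := by omega
      have hmem := List.count_pos_iff.1 hpos
      obtain ⟨i, hi⟩ := (List.mem_ofFn' z w).1 hmem
      subst hi
      rw [count_ofFn] at hm
      exact hv i m hm
    obtain ⟨h, hh, hFh⟩ := factor (List.ofFn z) hFd hv'
    have hFh' : F = fun w => (∏ j, (w - z j)) * h w := by
      rw [hFh]; funext w; rw [prod_eq_lp]
    have hn1 : ∀ w : ℂ, ‖w‖ ≤ 1 → ‖iteratedDeriv n (fun w => (∏ j, (w - z j)) * h w) w‖ ≤ 1 := by
      intro w hw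
      rw [← hFh', hF]
      rw [iteratedDeriv_fun_sub (entire_contDiffAt hg n w) (entire_contDiffAt (poly_entire p) n w),
        iter_poly_zero hn hp, sub_zero]
      exact hgn w hw
    obtain ⟨y, hy, hxy⟩ := hB h hh hn1 x hx
    rw [hFh']
    refine hxy.trans ?_
    apply mul_le_mul_of_nonneg_left _ hc.le
    exact le_csSup (rset_bdd n k z) ⟨y, hy, rfl⟩
  have hne : (lset n k z).Nonempty := by
    obtain ⟨t, ht⟩ := rset_nonempty n k z
    exact ⟨_, mem_lset hn z ht⟩
  apply le_antisymm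
  · exact csSup_le hne hub
  · have hbdd : BddAbove (lset n k z) := ⟨_, hub⟩
    have h1 : sSup (rset n k z) ≤ (n.factorial : ℝ) * sSup (lset n k z) := by
      apply csSup_le (rset_nonempty n k z)
      intro t ht
      have h2 := le_csSup hbdd (mem_lset hn z ht)
      have h3 : t = (n.factorial : ℝ) * ((1 / (n.factorial : ℝ)) * t) := by
        field_simp
      rw [h3]
      exact mul_le_mul_of_nonneg_left h2 hfac.le
    calc (1 / (n.factorial : ℝ)) * sSup (rset n k z)
        ≤ (1 / (n.factorial : ℝ)) * ((n.factorial : ℝ) * sSup (lset n k z)) :=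
          mul_le_mul_of_nonneg_left h1 hc.le
      _ = sSup (lset n k z) := by field_simp

/-- A self-conjugate node list is, up to order, a list and its conjugate. -/
theorem pairs_of_fin {n : ℕ} (z : Fin n → ℂ)
    (hc : ∀ w : ℂ, Nat.card {j : Fin n // z j = w} = Nat.card {j : Fin n // z j = conj w})
    (hev : ∀ r : ℝ, Even (Nat.card {j : Fin n // z j = (r : ℂ)})) :
    ∃ L : List ℂ, n = 2 * L.length ∧ (∀ w ∈ L, ∃ i, z i = w) ∧
      ∀ w : ℂ, ∏ j, (w - z j) = fL L (fun _ => 1) w := by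
  obtain ⟨L, hL⟩ := exists_pairs n ((List.ofFn z : List ℂ) : Multiset ℂ) (by simp)
    (by intro w; rw [Multiset.coe_count, Multiset.coe_count, count_ofFn, count_ofFn]; exact hc w)
    (by intro r; rw [Multiset.coe_count, count_ofFn]; exact hev r)
  have hperm : (List.ofFn z).Perm (L ++ L.map conj) := Multiset.coe_eq_coe.1 hL
  refine ⟨L, ?_, ?_, ?_⟩
  · have := hperm.length_eq
    rw [List.length_ofFn, List.length_append, List.length_map] at this
    omega
  · intro w hw
    have h1 : w ∈ List.ofFn z := hperm.mem_iff.2 (List.mem_append_left _ hw)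
    exact (List.mem_ofFn' z w).1 h1
  · intro w
    rw [prod_eq_lp, lp_perm hperm, fL_eq, mul_one]

theorem fL_mul (L : List ℂ) (h : ℂ → ℂ) (w : ℂ) : fL L h w = fL L (fun _ => 1) w * h w := by
  rw [fL_eq, fL_eq, mul_one]

end Pool.Agent.ConjInterp
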