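import Pool.Agent.ConjInterp.Vert

/-!
The estimate for a conjugate pair in the case `k = n - 1`.
-/

set_option autoImplicit false

namespace Pool.Agent.ConjInterp

open Complex Set MeasureTheory intervalIntegral Metric ComplexConjugate

theorem integral_pow_sq (j : ℕ) :
    ∫ s in (0:ℝ)..1, (1 - s) ^ j * s ^ 2 = 2 / (((j:ℝ) + 1) * (j + 2) * (j + 3)) := by
  have h := intervalIntegral.integral_comp_sub_left (fun s : ℝ => s ^ j * (1 - s) ^ 2) (1:ℝ)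
    (a := 0) (b := 1)
  have e1 : (fun s : ℝ => (1 - s) ^ j * s ^ 2)
      = fun s : ℝ => (fun s : ℝ => s ^ j * (1 - s) ^ 2) (1 - s) := by
    funext s; simp
  rw [e1, h]
  have e2 : ∀ s : ℝ, s ^ j * (1 - s) ^ 2 = s ^ j - 2 * s ^ (j + 1) + s ^ (j + 2) := by
    intro s; ring
  simp only [e2]
  rw [intervalIntegral.integral_add, intervalIntegral.integral_sub,
    intervalIntegral.integral_const_mul, integral_pow, integral_pow, integral_pow]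
  · have h1 : (j:ℝ) + 1 ≠ 0 := by positivity
    have h2 : (j:ℝ) + 2 ≠ 0 := by positivity
    have h3 : (j:ℝ) + 3 ≠ 0 := by positivity
    push_cast
    have h2' : (j:ℝ) + 1 + 1 ≠ 0 := by positivity
    have h3' : (j:ℝ) + 2 + 1 ≠ 0 := by positivity
    field_simp
    norm_num
    ring
  all_goals apply Continuous.intervalIntegrable; fun_prop

/-- `D(s) = Ψ(x+sρ) - Ψ(x+sσ) - s(ρ-σ)ψ(x)` -/
noncomputable def Dfun (f : ℂ → ℂ) (x ρ σ : ℂ) (s : ℝ) : ℂ :=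
  f (x + (s:ℂ) * ρ) - f (x + (s:ℂ) * σ) - (s:ℂ) * ((ρ - σ) * deriv f x)

noncomputable def Dfun' (f : ℂ → ℂ) (x ρ σ : ℂ) (s : ℝ) : ℂ :=
  ρ * deriv f (x + (s:ℂ) * ρ) - σ * deriv f (x + (s:ℂ) * σ) - (ρ - σ) * deriv f x

noncomputable def Dfun'' (f : ℂ → ℂ) (x ρ σ : ℂ) (s : ℝ) : ℂ :=
  ρ * (ρ * deriv (deriv f) (x + (s:ℂ) * ρ)) - σ * (σ * deriv (deriv f) (x + (s:ℂ) * σ))

theorem hasDerivAt_Dfun {f : ℂ → ℂ} (hf : Differentiable ℂ f) (x ρ σ : ℂ) (s : ℝ) :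
    HasDerivAt (Dfun f x ρ σ) (Dfun' f x ρ σ s) s := by
  have h1 := hasDerivAt_along x ρ s ((hf (x + (s:ℂ) * ρ)).hasDerivAt)
  have h2 := hasDerivAt_along x σ s ((hf (x + (s:ℂ) * σ)).hasDerivAt)
  have h3 : HasDerivAt (fun t : ℝ => (t:ℂ) * ((ρ - σ) * deriv f x)) (1 * ((ρ - σ) * deriv f x)) s := by
    have := (Complex.ofRealCLM.hasDerivAt (x := s)).mul_const ((ρ - σ) * deriv f x)
    simpa using this
  have h := (h1.fun_sub h2).fun_sub h3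
  rw [one_mul] at h
  exact h

theorem hasDerivAt_Dfun' {f : ℂ → ℂ} (hf : Differentiable ℂ f) (x ρ σ : ℂ) (s : ℝ) :
    HasDerivAt (Dfun' f x ρ σ) (Dfun'' f x ρ σ s) s := by
  have h1 := (hasDerivAt_along x ρ s ((entire_deriv hf (x + (s:ℂ) * ρ)).hasDerivAt)).const_mul ρ
  have h2 := (hasDerivAt_along x σ s ((entire_deriv hf (x + (s:ℂ) * σ)).hasDerivAt)).const_mul σ
  exact (h1.fun_sub h2).sub_const _

theorem continuous_Dfun {f : ℂ → ℂ} (hf : Differentiable ℂ f) (x ρ σ : ℂ) :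
    Continuous (Dfun f x ρ σ) :=
  ((continuous_along hf x ρ).sub (continuous_along hf x σ)).sub
    (Complex.continuous_ofReal.mul continuous_const)

theorem continuous_Dfun'' {f : ℂ → ℂ} (hf : Differentiable ℂ f) (x ρ σ : ℂ) :
    Continuous (Dfun'' f x ρ σ) :=
  (continuous_const.mul (continuous_const.mul
    (continuous_along (entire_deriv (entire_deriv hf)) x ρ))).sub
  (continuous_const.mul (continuous_const.mul
    (continuous_along (entire_deriv (entire_deriv hf)) x σ)))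

theorem cont_pow (m : ℕ) : Continuous (fun s : ℝ => ((1:ℂ) - (s:ℂ)) ^ m) :=
  (continuous_const.sub Complex.continuous_ofReal).pow m

theorem parts_zero {f : ℂ → ℂ} (hf : Differentiable ℂ f) (x ρ σ : ℂ) :
    ∫ s in (0:ℝ)..1, ((1:ℂ) - (s:ℂ)) ^ 1 * Dfun'' f x ρ σ s = Dfun f x ρ σ 1 := by
  have hd : ∀ s : ℝ, HasDerivAt
      (fun t : ℝ => ((1:ℂ) - (t:ℂ)) * Dfun' f x ρ σ t + Dfun f x ρ σ t)
      (((1:ℂ) - (s:ℂ)) ^ 1 * Dfun'' f x ρ σ s) s := by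
    intro s
    have h1 : HasDerivAt (fun t : ℝ => ((1:ℂ) - (t:ℂ))) (-1) s := by
      have := (Complex.ofRealCLM.hasDerivAt (x := s)).const_sub (1:ℂ)
      simpa using this
    have h := (h1.fun_mul (hasDerivAt_Dfun' hf x ρ σ s)).fun_add (hasDerivAt_Dfun hf x ρ σ s)
    have heq : ((1:ℂ) - (s:ℂ)) ^ 1 * Dfun'' f x ρ σ s
        = (-1) * Dfun' f x ρ σ s + ((1:ℂ) - (s:ℂ)) * Dfun'' f x ρ σ s + Dfun' f x ρ σ s := by
      ring
    rw [heq]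
    exact h
  rw [integral_eq_sub_of_hasDerivAt (fun s _ => hd s)
    (((cont_pow 1).mul (continuous_Dfun'' hf x ρ σ)).intervalIntegrable 0 1)]
  simp [Dfun', Dfun]
  ring

theorem parts_succ {f : ℂ → ℂ} (hf : Differentiable ℂ f) (x ρ σ : ℂ) (j : ℕ) :
    ∫ s in (0:ℝ)..1, ((1:ℂ) - (s:ℂ)) ^ (j + 2) * Dfun'' f x ρ σ s
      = ((j:ℂ) + 2) * (j + 1) * ∫ s in (0:ℝ)..1, ((1:ℂ) - (s:ℂ)) ^ j * Dfun f x ρ σ s := by
  have hd : ∀ s : ℝ, HasDerivAt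
      (fun t : ℝ => ((1:ℂ) - (t:ℂ)) ^ (j + 2) * Dfun' f x ρ σ t
        + ((j:ℂ) + 2) * (((1:ℂ) - (t:ℂ)) ^ (j + 1) * Dfun f x ρ σ t))
      (((1:ℂ) - (s:ℂ)) ^ (j + 2) * Dfun'' f x ρ σ s
        - ((j:ℂ) + 2) * (j + 1) * (((1:ℂ) - (s:ℂ)) ^ j * Dfun f x ρ σ s)) s := by
    intro s
    have h1 : HasDerivAt (fun t : ℝ => ((1:ℂ) - (t:ℂ))) (-1) s := by
      have := (Complex.ofRealCLM.hasDerivAt (x := s)).const_sub (1:ℂ)
      simpa using this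
    have hp : ∀ m : ℕ, HasDerivAt (fun t : ℝ => ((1:ℂ) - (t:ℂ)) ^ (m + 1))
        (((m + 1 : ℕ) : ℂ) * (1 - (s:ℂ)) ^ m * (-1)) s := by
      intro m
      have := h1.fun_pow (m + 1)
      simpa using this
    have h := ((hp (j + 1)).fun_mul (hasDerivAt_Dfun' hf x ρ σ s)).fun_add
      (((hp j).fun_mul (hasDerivAt_Dfun hf x ρ σ s)).const_mul ((j:ℂ) + 2))
    have heq : ((1:ℂ) - (s:ℂ)) ^ (j + 2) * Dfun'' f x ρ σ s
        - ((j:ℂ) + 2) * (j + 1) * (((1:ℂ) - (s:ℂ)) ^ j * Dfun f x ρ σ s)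
        = (((j + 1 + 1 : ℕ) : ℂ) * (1 - (s:ℂ)) ^ (j + 1) * (-1) * Dfun' f x ρ σ s
          + ((1:ℂ) - (s:ℂ)) ^ (j + 1 + 1) * Dfun'' f x ρ σ s)
          + ((j:ℂ) + 2) * (((j + 1 : ℕ) : ℂ) * (1 - (s:ℂ)) ^ j * (-1) * Dfun f x ρ σ s
            + ((1:ℂ) - (s:ℂ)) ^ (j + 1) * Dfun' f x ρ σ s) := by
      push_cast
      ring
    rw [heq]
    exact h
  have hc1 : Continuous (fun s : ℝ => ((1:ℂ) - (s:ℂ)) ^ (j + 2) * Dfun'' f x ρ σ s) :=
    (cont_pow (j + 2)).mul (continuous_Dfun'' hf x ρ σ)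
  have hc2 : Continuous (fun s : ℝ => ((j:ℂ) + 2) * (j + 1) *
      (((1:ℂ) - (s:ℂ)) ^ j * Dfun f x ρ σ s)) :=
    continuous_const.mul ((cont_pow j).mul (continuous_Dfun hf x ρ σ))
  have h := integral_eq_sub_of_hasDerivAt (fun s _ => hd s)
    ((hc1.sub hc2).intervalIntegrable 0 1)
  rw [intervalIntegral.integral_sub (hc1.intervalIntegrable 0 1) (hc2.intervalIntegrable 0 1),
    intervalIntegral.integral_const_mul] at h
  have hz : (((1:ℂ) - ((1:ℝ):ℂ)) ^ (j + 2) * Dfun' f x ρ σ 1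
        + ((j:ℂ) + 2) * (((1:ℂ) - ((1:ℝ):ℂ)) ^ (j + 1) * Dfun f x ρ σ 1))
      - (((1:ℂ) - ((0:ℝ):ℂ)) ^ (j + 2) * Dfun' f x ρ σ 0
        + ((j:ℂ) + 2) * (((1:ℂ) - ((0:ℝ):ℂ)) ^ (j + 1) * Dfun f x ρ σ 0)) = 0 := by
    simp [Dfun', Dfun]
    ring
  rw [hz] at h
  exact sub_eq_zero.1 h

theorem norm_one_sub {s : ℝ} (hs : s ≤ 1) : ‖(1:ℂ) - (s:ℂ)‖ = 1 - s := by
  have : (1:ℂ) - (s:ℂ) = ((1 - s : ℝ) : ℂ) := by push_cast; ring
  rw [this, Complex.norm_real, Real.norm_of_nonneg (by linarith)]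

/-- the integral of the second derivative of `D` against `(1-s)^(m+1)` -/
theorem norm_J {f : ℂ → ℂ} (hf : Differentiable ℂ f) (x ρ σ : ℂ) (m : ℕ) {K : ℝ}
    (hK : ∀ s ∈ Icc (0:ℝ) 1, ‖Dfun f x ρ σ s‖ ≤ K * s ^ 2) :
    ‖∫ s in (0:ℝ)..1, ((1:ℂ) - (s:ℂ)) ^ (m + 1) * Dfun'' f x ρ σ s‖ ≤ 2 * K / ((m:ℝ) + 2) := by
  cases m with
  | zero =>
    rw [zero_add, parts_zero hf]
    have := hK 1 (right_mem_Icc.2 zero_le_one)
    push_cast
    linarith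
  | succ j =>
    rw [show j + 1 + 1 = j + 2 from rfl, parts_succ hf, norm_mul]
    have hn : ‖((j:ℂ) + 2) * (j + 1)‖ = ((j:ℝ) + 2) * (j + 1) := by
      have : ((j:ℂ) + 2) * (j + 1) = ((((j:ℝ) + 2) * (j + 1) : ℝ) : ℂ) := by push_cast; ring
      rw [this, Complex.norm_real, Real.norm_of_nonneg (by positivity)]
    rw [hn]
    have hI : ‖∫ s in (0:ℝ)..1, ((1:ℂ) - (s:ℂ)) ^ j * Dfun f x ρ σ s‖
        ≤ ∫ s in (0:ℝ)..1, K * ((1 - s) ^ j * s ^ 2) := by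
      apply intervalIntegral.norm_integral_le_of_norm_le (by norm_num)
      · refine Filter.Eventually.of_forall (fun s hs => ?_)
        rw [norm_mul, norm_pow, norm_one_sub hs.2]
        have h1 := hK s ⟨hs.1.le, hs.2⟩
        have h2 : 0 ≤ (1 - s) ^ j := pow_nonneg (by linarith [hs.2]) _
        calc (1 - s) ^ j * ‖Dfun f x ρ σ s‖ ≤ (1 - s) ^ j * (K * s ^ 2) :=
              mul_le_mul_of_nonneg_left h1 h2
          _ = K * ((1 - s) ^ j * s ^ 2) := by ring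
      · apply Continuous.intervalIntegrable
        fun_prop
    rw [intervalIntegral.integral_const_mul, integral_pow_sq] at hI
    calc ((j:ℝ) + 2) * (j + 1) * ‖∫ s in (0:ℝ)..1, ((1:ℂ) - (s:ℂ)) ^ j * Dfun f x ρ σ s‖
        ≤ ((j:ℝ) + 2) * (j + 1) * (K * (2 / (((j:ℝ) + 1) * (j + 2) * (j + 3)))) :=
          mul_le_mul_of_nonneg_left hI (by positivity)
      _ = 2 * K / (((j + 1 : ℕ) : ℝ) + 2) := by
          push_cast
          have h1 : (j:ℝ) + 1 ≠ 0 := by positivity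
          have h2 : (j:ℝ) + 2 ≠ 0 := by positivity
          have h3 : (j:ℝ) + 3 ≠ 0 := by positivity
          have h4 : (j:ℝ) + 1 + 2 ≠ 0 := by positivity
          field_simp
          ring

end Pool.Agent.ConjInterp
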