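import Pool.Agent.ConjInterp.Endpoint

/-!
The order `k = n − 1`.
-/

set_option autoImplicit false

namespace Pool.Agent.ConjInterp

open Complex Set Metric ComplexConjugate Polynomial

theorem Bd_sub_one (α q : ℂ → ℝ) (L : List ℂ) (hL : L ≠ []) :
    Bd α q L (2 * L.length - 1)
      = (Nat.factorial (2 * L.length - 1) : ℝ) * (L.map (fun z => 2 * α z)).sum := by
  induction L with
  | nil => exact absurd rfl hL
  | cons z L ih =>
    have e : 2 * (z :: L).length - 1 = 2 * L.length + 1 := by rw [List.length_cons]; omega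
    rw [e, Bd, Bd_zero_of_lt α q L (2 * L.length + 1) (by omega),
      show 2 * L.length + 1 - 1 = 2 * L.length by omega, Bd_top, List.map_cons, List.sum_cons]
    rcases L.eq_nil_or_concat with h0 | h0
    · subst h0
      simp
    · have hne : L ≠ [] := by
        obtain ⟨L', b, rfl⟩ := h0
        simp
      have hpos : 0 < L.length := List.length_pos_iff.2 hne
      rw [show 2 * L.length + 1 - 2 = 2 * L.length - 1 by omega, ih hne]
      have e2 : (Nat.factorial (2 * L.length + 1) : ℝ)
          = (2 * L.length + 1 : ℝ) * (2 * L.length : ℝ) * (Nat.factorial (2 * L.length - 1) : ℝ) := by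
        have h1 : Nat.factorial (2 * L.length + 1) = (2 * L.length + 1) * Nat.factorial (2 * L.length) :=
          Nat.factorial_succ _
        have h2 : Nat.factorial (2 * L.length) = (2 * L.length) * Nat.factorial (2 * L.length - 1) := by
          obtain ⟨m, hm⟩ : ∃ m, 2 * L.length = m + 1 := ⟨2 * L.length - 1, by omega⟩
          rw [hm, Nat.factorial_succ]
          rfl
        rw [h1, h2]
        push_cast
        ring
      have e3 : (Nat.factorial (2 * L.length) : ℝ)
          = (2 * L.length : ℝ) * (Nat.factorial (2 * L.length - 1) : ℝ) := by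
        obtain ⟨m, hm⟩ : ∃ m, 2 * L.length = m + 1 := ⟨2 * L.length - 1, by omega⟩
        have h2 : Nat.factorial (2 * L.length) = (2 * L.length) * Nat.factorial (2 * L.length - 1) := by
          rw [hm, Nat.factorial_succ]
          rfl
        rw [h2]
        push_cast
        ring
      rw [e2, e3]
      push_cast
      ring

theorem pairs_perm {n : ℕ} (z : Fin n → ℂ)
    (hc : ∀ w : ℂ, Nat.card {j : Fin n // z j = w} = Nat.card {j : Fin n // z j = conj w})
    (hev : ∀ r : ℝ, Even (Nat.card {j : Fin n // z j = (r : ℂ)})) :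
    ∃ L : List ℂ, n = 2 * L.length ∧ (∀ w ∈ L, ∃ i, z i = w) ∧
      (∀ w : ℂ, ∏ j, (w - z j) = fL L (fun _ => 1) w) ∧
      ∀ φ : ℂ → ℝ, (∀ w, φ (conj w) = φ w) → ∑ j, φ (z j) = (L.map (fun w => 2 * φ w)).sum := by
  obtain ⟨L, hL⟩ := exists_pairs n ((List.ofFn z : List ℂ) : Multiset ℂ) (by simp)
    (by intro w; rw [Multiset.coe_count, Multiset.coe_count, count_ofFn, count_ofFn]; exact hc w)
    (by intro r; rw [Multiset.coe_count, count_ofFn]; exact hev r)
  have hperm : (List.ofFn z).Perm (L ++ L.map conj) := Multiset.coe_eq_coe.1 hL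
  refine ⟨L, ?_, ?_, ?_, ?_⟩
  · have := hperm.length_eq
    rw [List.length_ofFn, List.length_append, List.length_map] at this
    omega
  · intro w hw
    have h1 : w ∈ List.ofFn z := hperm.mem_iff.2 (List.mem_append_left _ hw)
    exact (List.mem_ofFn' z w).1 h1
  · intro w
    rw [prod_eq_lp, lp_perm hperm, fL_eq, mul_one]
  · intro φ hφ
    have h1 : ∑ j, φ (z j) = ((List.ofFn z).map φ).sum := by
      rw [List.map_ofFn, List.sum_ofFn]
      rfl
    rw [h1, (hperm.map φ).sum_eq, List.map_append, List.sum_append, List.map_map]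
    have h2 : (L.map (φ ∘ conj)).sum = (L.map φ).sum := by
      congr 1
      apply List.map_congr_left
      intro w _
      exact hφ w
    rw [h2, ← two_mul, ← List.sum_map_mul_left]

/-- the majorant of the norm of the first order functional at horizontal distance `m` from a
vertical segment of half-width `|b|` -/
noncomputable def beta (m b : ℝ) : ℝ := |m| + (max 0 (|b| - |m|)) ^ 2 / (2 * |b|)

theorem abs_le_beta (m b : ℝ) : |m| ≤ beta m b := by
  unfold beta
  have : 0 ≤ (max 0 (|b| - |m|)) ^ 2 / (2 * |b|) := by positivity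
  linarith

/-- tangent lines -/
theorem tangent {m m0 b : ℝ} (hb : 0 < b) (h0 : |m0| ≤ b) :
    (b ^ 2 - m0 ^ 2) / (2 * b) + m0 / b * m ≤ beta m b := by
  unfold beta
  rw [abs_of_pos hb]
  have hm := abs_nonneg m
  have e1 : (b ^ 2 - m0 ^ 2) / (2 * b) + m0 / b * m = (b ^ 2 - m0 ^ 2 + 2 * m0 * m) / (2 * b) := by
    field_simp
  rw [e1]
  rcases le_total |m| b with h | h
  · rw [max_eq_right (by linarith)]
    have e2 : |m| + (b - |m|) ^ 2 / (2 * b) = (b ^ 2 + |m| ^ 2) / (2 * b) := by
      field_simp
      ring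
    rw [e2, div_le_div_iff_of_pos_right (by positivity), sq_abs]
    nlinarith [sq_nonneg (m - m0)]
  · rw [max_eq_left (by linarith)]
    have e2 : |m| + (0:ℝ) ^ 2 / (2 * b) = (2 * b * |m|) / (2 * b) := by
      field_simp
      ring
    rw [e2, div_le_div_iff_of_pos_right (by positivity)]
    have h2 : 2 * m0 * m ≤ 2 * |m0| * |m| := by
      have := le_abs_self (m0 * m)
      rw [abs_mul] at this
      linarith
    have h3 : m0 ^ 2 = |m0| ^ 2 := (sq_abs m0).symm
    rw [h3]
    have h4 := abs_nonneg m0
    nlinarith [mul_nonneg (sub_nonneg.2 h0) (sub_nonneg.2 h), mul_nonneg (sub_nonneg.2 h0) h4,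
      mul_nonneg (sub_nonneg.2 h0) (sub_nonneg.2 h0)]

/-- The equality for `k = n − 1`. -/
theorem equality_top (n : ℕ) (z : Fin n → ℂ) (hn : 1 ≤ n)
    (hz : ∀ i, ‖z i‖ ≤ 1)
    (hc : ∀ w : ℂ, Nat.card {j : Fin n // z j = w} = Nat.card {j : Fin n // z j = conj w})
    (hev : ∀ r : ℝ, Even (Nat.card {j : Fin n // z j = (r : ℂ)}))
    (h1 : ∑ j, (max 0 (|(z j).im| + (z j).re - 1)) ^ 2 / (2 * |(z j).im|)
      ≤ |∑ j, (z j).re| + ∑ j, (z j).re)
    (h2 : ∑ j, (max 0 (|(z j).im| - (z j).re - 1)) ^ 2 / (2 * |(z j).im|)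
      ≤ |∑ j, (z j).re| - ∑ j, (z j).re) :
    sSup (lset n (n - 1) z) = (1 / (n.factorial : ℝ)) * sSup (rset n (n - 1) z) := by
  obtain ⟨L, hn2, hmem, hprod, hsum⟩ := pairs_perm z hc hev
  have hre : ∀ i, |(z i).re| ≤ 1 := fun i => (Complex.abs_re_le_norm (z i)).trans (hz i)
  have hne : L ≠ [] := by
    intro h0
    subst h0
    simp at hn2
    omega
  have hp1 : ∀ j, |(1:ℝ) - (z j).re| = 1 - (z j).re := by
    intro j
    rw [abs_of_nonneg (by linarith [(abs_le.1 (hre j)).2])]
  have hm1 : ∀ j, |(-1:ℝ) - (z j).re| = 1 + (z j).re := by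
    intro j
    rw [abs_of_nonpos (by linarith [(abs_le.1 (hre j)).1])]; ring
  -- the endpoint
  obtain ⟨e, he, hee⟩ : ∃ e : ℝ, (e = 1 ∨ e = -1) ∧
      (n:ℝ) + |∑ j, (z j).re| = ∑ j, |e - (z j).re| := by
    rcases le_total 0 (∑ j, (z j).re) with h | h
    · refine ⟨-1, Or.inr rfl, ?_⟩
      rw [abs_of_nonneg h]
      simp only [hm1, Finset.sum_add_distrib]
      simp
    · refine ⟨1, Or.inl rfl, ?_⟩
      rw [abs_of_nonpos h]
      simp only [hp1, Finset.sum_sub_distrib]
      simp
      ring
  have hb1 : ∑ j, beta (1 - (z j).re) (z j).im ≤ n + |∑ j, (z j).re| := by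
    have : ∀ j, beta (1 - (z j).re) (z j).im = 1 - (z j).re
        + (max 0 (|(z j).im| + (z j).re - 1)) ^ 2 / (2 * |(z j).im|) := by
      intro j
      rw [beta, hp1 j]
      congr 4
      ring
    simp only [this, Finset.sum_add_distrib, Finset.sum_sub_distrib]
    simp only [Finset.sum_const, Finset.card_univ, Fintype.card_fin, nsmul_eq_mul, mul_one]
    linarith
  have hb2 : ∑ j, beta (-1 - (z j).re) (z j).im ≤ n + |∑ j, (z j).re| := by
    have : ∀ j, beta (-1 - (z j).re) (z j).im = 1 + (z j).re
        + (max 0 (|(z j).im| - (z j).re - 1)) ^ 2 / (2 * |(z j).im|) := by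
      intro j
      rw [beta, hm1 j]
      congr 4
      ring
    simp only [this, Finset.sum_add_distrib]
    simp only [Finset.sum_const, Finset.card_univ, Fintype.card_fin, nsmul_eq_mul, mul_one]
    linarith
  apply reduce hn z
  intro h hh hb x hx
  have hfun : ∀ h : ℂ → ℂ, (fun w => (∏ j, (w - z j)) * h w) = fL L h := by
    intro h; funext w; rw [hprod w, fL_mul L h w]
  have hfun1 : (fun w => ∏ j, (w - z j)) = fL L (fun _ => 1) := by
    funext w; exact hprod w
  have hx1 : |x| ≤ 1 := abs_le.2 ⟨hx.1, hx.2⟩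
  have c1 : 0 ≤ (1 + x) / 2 := by linarith [hx.1]
  have c2 : 0 ≤ (1 - x) / 2 := by linarith [hx.2]
  refine ⟨e, ?_, ?_⟩
  · rcases he with rfl | rfl <;> constructor <;> norm_num
  · rw [hfun h, hfun1]
    rw [hfun h] at hb
    have hc1 := core hx1 (fun w => (1 + x) / 2 * beta (1 - w.re) w.im
        + (1 - x) / 2 * beta (-1 - w.re) w.im) (fun w => ‖(x:ℂ) - w‖ ^ 2) L
      (by
        intro w hw
        obtain ⟨i, rfl⟩ := hmem w hw
        have hlin : (1 + x) / 2 * (1 - (z i).re) + (1 - x) / 2 * (-1 - (z i).re) = x - (z i).re := by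
          ring
        refine ⟨hz i, ?_, ?_, le_rfl⟩
        · calc |x - (z i).re| = |(1 + x) / 2 * (1 - (z i).re) + (1 - x) / 2 * (-1 - (z i).re)| := by
                rw [hlin]
            _ ≤ |(1 + x) / 2 * (1 - (z i).re)| + |(1 - x) / 2 * (-1 - (z i).re)| := abs_add_le _ _
            _ = (1 + x) / 2 * |1 - (z i).re| + (1 - x) / 2 * |-1 - (z i).re| := by
                rw [abs_mul, abs_mul, abs_of_nonneg c1, abs_of_nonneg c2]
            _ ≤ _ := add_le_add (mul_le_mul_of_nonneg_left (abs_le_beta _ _) c1)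
                (mul_le_mul_of_nonneg_left (abs_le_beta _ _) c2)
        · rcases le_total |(z i).im| |x - (z i).re| with h4 | h4
          · exact Or.inr h4
          · left
            rcases eq_or_lt_of_le (abs_nonneg (z i).im) with h0 | h0
            · rw [← h0] at h4
              have h5 : x - (z i).re = 0 := abs_eq_zero.1 (le_antisymm h4 (abs_nonneg _))
              have h6 : (z i).im = 0 := abs_eq_zero.1 h0.symm
              rw [h5, h6]
              simp
            · have t1 := tangent (m := 1 - (z i).re) h0 h4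
              have t2 := tangent (m := -1 - (z i).re) h0 h4
              have hbb : ∀ m, beta m |(z i).im| = beta m (z i).im := by
                intro m; rw [beta, beta, abs_abs]
              rw [hbb] at t1 t2
              have t3 := mul_le_mul_of_nonneg_left t1 c1
              have t4 := mul_le_mul_of_nonneg_left t2 c2
              set B := |(z i).im| with hB
              have hBsq : (z i).im ^ 2 = B ^ 2 := (sq_abs _).symm
              have t5 : (B ^ 2 - (x - (z i).re) ^ 2) / (2 * B) + (x - (z i).re) / B * (x - (z i).re)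
                  ≤ (1 + x) / 2 * beta (1 - (z i).re) (z i).im
                    + (1 - x) / 2 * beta (-1 - (z i).re) (z i).im := by
                have e5 : (B ^ 2 - (x - (z i).re) ^ 2) / (2 * B) + (x - (z i).re) / B * (x - (z i).re)
                  = (1 + x) / 2 * ((B ^ 2 - (x - (z i).re) ^ 2) / (2 * B)
                      + (x - (z i).re) / B * (1 - (z i).re))
                    + (1 - x) / 2 * ((B ^ 2 - (x - (z i).re) ^ 2) / (2 * B)
                      + (x - (z i).re) / B * (-1 - (z i).re)) := by ring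
                rw [e5]
                exact add_le_add t3 t4
              have t6 := mul_le_mul_of_nonneg_left t5 (by positivity : (0:ℝ) ≤ 2 * B)
              have e6 : 2 * B * ((B ^ 2 - (x - (z i).re) ^ 2) / (2 * B)
                  + (x - (z i).re) / B * (x - (z i).re)) = (x - (z i).re) ^ 2 + B ^ 2 := by
                field_simp
                ring
              rw [e6] at t6
              rw [hBsq]
              exact t6) hh
      (C := 1) (by rw [← hn2]; exact hb) (n - 1) (by omega)
    rw [hn2] at hc1 ⊢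
    rw [Bd_sub_one _ _ _ hne] at hc1
    refine hc1.trans ?_
    rw [at_endpoint he L (fun w hw => by obtain ⟨i, rfl⟩ := hmem w hw; exact hz i),
      Bd_sub_one _ _ _ hne, Complex.norm_real, Real.norm_eq_abs, abs_mul]
    have h2' : |e ^ (2 * L.length - 1)| = 1 := by
      rw [abs_pow]
      rcases he with rfl | rfl <;> simp
    rw [h2', one_mul]
    apply mul_le_mul_of_nonneg_left _ (by positivity)
    refine le_trans ?_ (le_abs_self _)
    apply mul_le_mul_of_nonneg_left _ (by positivity)
    have hs1 := hsum (fun w => (1 + x) / 2 * beta (1 - w.re) w.im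
        + (1 - x) / 2 * beta (-1 - w.re) w.im) (by intro w; simp [beta])
    have hs2 := hsum (fun w => |e - w.re|) (by intro w; simp)
    rw [← hs1, ← hs2, ← hee, Finset.sum_add_distrib, ← Finset.mul_sum, ← Finset.mul_sum]
    have m1 := mul_le_mul_of_nonneg_left hb1 c1
    have m2 := mul_le_mul_of_nonneg_left hb2 c2
    have e3 : (1 + x) / 2 * ((n:ℝ) + |∑ j, (z j).re|) + (1 - x) / 2 * ((n:ℝ) + |∑ j, (z j).re|)
      = (n:ℝ) + |∑ j, (z j).re| := by ring
    linarith

end Pool.Agent.ConjInterp
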