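import Pool.Agent.ConjInterp.Pair

/-!
The second order difference over a vertical segment.
-/

set_option autoImplicit false

namespace Pool.Agent.ConjInterp

open Complex Set MeasureTheory intervalIntegral Metric

theorem lip_ball {f : ℂ → ℂ} (hf : Differentiable ℂ f) {C : ℝ}
    (hC : ∀ w, ‖w‖ ≤ 1 → ‖deriv f w‖ ≤ C) {u v : ℂ} (hu : ‖u‖ ≤ 1) (hv : ‖v‖ ≤ 1) :
    ‖f v - f u‖ ≤ C * ‖v - u‖ := by
  apply Convex.norm_image_sub_le_of_norm_deriv_le (s := closedBall (0:ℂ) 1)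
    (fun x _ => hf x) (fun x hx => hC x (by simpa using hx)) (convex_closedBall _ _)
  · simpa using hu
  · simpa using hv

/-- Second order Taylor bound in the disc. -/
theorem taylor_two {f : ℂ → ℂ} (hf : Differentiable ℂ f) {C : ℝ}
    (hC : ∀ w, ‖w‖ ≤ 1 → ‖deriv (deriv f) w‖ ≤ C) {x ρ : ℂ} (hx : ‖x‖ ≤ 1) (hxρ : ‖x + ρ‖ ≤ 1) :
    ‖f (x + ρ) - f x - ρ * deriv f x‖ ≤ C * ‖ρ‖ ^ 2 / 2 := by
  have hC0 : 0 ≤ C := (norm_nonneg _).trans (hC 0 (by simp))
  have key := image_norm_le_of_norm_deriv_right_le_deriv_boundary (a := 0) (b := 1)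
    (f := fun s : ℝ => f (x + (s:ℂ) * ρ) - f x - (s:ℂ) * (ρ * deriv f x))
    (f' := fun s : ℝ => ρ * deriv f (x + (s:ℂ) * ρ) - 1 * (ρ * deriv f x))
    (B := fun s : ℝ => C * ‖ρ‖ ^ 2 / 2 * s ^ 2) (B' := fun s : ℝ => C * ‖ρ‖ ^ 2 * s)
    ?_ ?_ ?_ ?_ ?_ (right_mem_Icc.2 zero_le_one)
  · simpa using key
  · apply Continuous.continuousOn
    exact ((continuous_along hf x ρ).sub continuous_const).sub
      (Complex.continuous_ofReal.mul continuous_const)
  · intro s _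
    apply HasDerivAt.hasDerivWithinAt
    have h1 := hasDerivAt_along x ρ s ((hf (x + (s:ℂ) * ρ)).hasDerivAt)
    have h2 : HasDerivAt (fun t : ℝ => (t:ℂ) * (ρ * deriv f x)) (1 * (ρ * deriv f x)) s := by
      have := (Complex.ofRealCLM.hasDerivAt (x := s)).mul_const (ρ * deriv f x)
      simpa using this
    exact (h1.sub_const (f x)).fun_sub h2
  · simp
  · intro s
    have h := (hasDerivAt_pow 2 s).const_mul (C * ‖ρ‖ ^ 2 / 2)
    have heq : C * ‖ρ‖ ^ 2 * s = C * ‖ρ‖ ^ 2 / 2 * (((2:ℕ):ℝ) * s ^ (2 - 1)) := by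
      norm_num
      ring
    rw [heq]
    exact h
  · intro s hs
    have hs' : s ∈ Icc (0:ℝ) 1 := ⟨hs.1, hs.2.le⟩
    have hmem : ‖x + (s:ℂ) * ρ‖ ≤ 1 := by
      have := mem_ball_path (z := x + ρ) hx hxρ hs'
      simpa using this
    have h := lip_ball (entire_deriv hf) hC hx hmem
    have hnorm : ‖x + (s:ℂ) * ρ - x‖ = s * ‖ρ‖ := by
      rw [add_sub_cancel_left, norm_mul, Complex.norm_real, Real.norm_of_nonneg hs.1]
    rw [hnorm] at h
    calc ‖ρ * deriv f (x + (s:ℂ) * ρ) - 1 * (ρ * deriv f x)‖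
        = ‖ρ‖ * ‖deriv f (x + (s:ℂ) * ρ) - deriv f x‖ := by
          rw [← norm_mul]; congr 1; ring
      _ ≤ ‖ρ‖ * (C * (s * ‖ρ‖)) := mul_le_mul_of_nonneg_left h (norm_nonneg _)
      _ = C * ‖ρ‖ ^ 2 * s := by ring

theorem norm_sq_mk (u v : ℝ) : ‖(u:ℂ) + v * I‖ ^ 2 = u ^ 2 + v ^ 2 := by
  rw [← Complex.normSq_eq_norm_sq, Complex.normSq_add_mul_I]

theorem norm_le_one_iff_mk (u v : ℝ) : ‖(u:ℂ) + v * I‖ ≤ 1 ↔ u ^ 2 + v ^ 2 ≤ 1 := by
  rw [← norm_sq_mk]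
  constructor
  · intro h
    nlinarith [norm_nonneg ((u:ℂ) + v * I)]
  · intro h
    nlinarith [norm_nonneg ((u:ℂ) + v * I)]

/-- near-vertical case -/
theorem vert_small {f : ℂ → ℂ} (hf : Differentiable ℂ f) {C : ℝ}
    (hC : ∀ w, ‖w‖ ≤ 1 → ‖deriv (deriv f) w‖ ≤ C) {x m b : ℝ} (hx : |x| ≤ 1)
    (hz : (x - m) ^ 2 + b ^ 2 ≤ 1) :
    ‖f (((x - m : ℝ) : ℂ) + b * I) - f (((x - m : ℝ) : ℂ) + (-b : ℝ) * I)
      - (2 * b * I) * deriv f x‖ ≤ C * (m ^ 2 + b ^ 2) := by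
  have hx' : ‖(x:ℂ)‖ ≤ 1 := by rw [Complex.norm_real]; exact hx
  have h1 := taylor_two hf hC (x := (x:ℂ)) (ρ := ((-m : ℝ) : ℂ) + b * I) hx' (by
    have : (x:ℂ) + (((-m : ℝ) : ℂ) + b * I) = ((x - m : ℝ) : ℂ) + b * I := by push_cast; ring
    rw [this, norm_le_one_iff_mk]; exact hz)
  have h2 := taylor_two hf hC (x := (x:ℂ)) (ρ := ((-m : ℝ) : ℂ) + (-b : ℝ) * I) hx' (by
    have : (x:ℂ) + (((-m : ℝ) : ℂ) + (-b : ℝ) * I) = ((x - m : ℝ) : ℂ) + (-b : ℝ) * I := by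
      push_cast; ring
    rw [this, norm_le_one_iff_mk]; nlinarith [hz])
  have e1 : (x:ℂ) + (((-m : ℝ) : ℂ) + b * I) = ((x - m : ℝ) : ℂ) + b * I := by push_cast; ring
  have e2 : (x:ℂ) + (((-m : ℝ) : ℂ) + (-b : ℝ) * I) = ((x - m : ℝ) : ℂ) + (-b : ℝ) * I := by
    push_cast; ring
  rw [e1, norm_sq_mk] at h1
  rw [e2, norm_sq_mk] at h2
  have e3 : f (((x - m : ℝ) : ℂ) + b * I) - f (((x - m : ℝ) : ℂ) + (-b : ℝ) * I)
      - (2 * b * I) * deriv f x
      = (f (((x - m : ℝ) : ℂ) + b * I) - f x - (((-m : ℝ) : ℂ) + b * I) * deriv f x)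
        - (f (((x - m : ℝ) : ℂ) + (-b : ℝ) * I) - f x
            - (((-m : ℝ) : ℂ) + (-b : ℝ) * I) * deriv f x) := by
    push_cast; ring
  rw [e3]
  refine (norm_sub_le _ _).trans ?_
  nlinarith [h1, h2]

theorem vert_ineq {x m b : ℝ} (hx : |x| ≤ 1) (hz : (x - m) ^ 2 + b ^ 2 ≤ 1) (hmb : |b| ≤ |m|) :
    ∃ m0 : ℝ, |m0| = |b| ∧ |m - m0| = |m| - |b| ∧ (x - m0) ^ 2 + b ^ 2 ≤ 1 := by
  have hx2 : x ^ 2 ≤ 1 := by
    have := abs_le.1 hx
    nlinarith [this.1, this.2]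
  have hb2 : |b| ^ 2 = b ^ 2 := sq_abs b
  have hb0 := abs_nonneg b
  rcases le_total 0 m with hm | hm
  · refine ⟨|b|, by rw [abs_abs], ?_, ?_⟩
    · rw [abs_of_nonneg hm] at hmb ⊢
      rw [abs_of_nonneg (by linarith)]
    · rw [abs_of_nonneg hm] at hmb
      rcases le_total |b| x with h | h
      · nlinarith
      · nlinarith
  · refine ⟨-|b|, by rw [abs_neg, abs_abs], ?_, ?_⟩
    · rw [abs_of_nonpos hm] at hmb ⊢
      rw [abs_of_nonpos (by linarith)]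
      ring
    · rw [abs_of_nonpos hm] at hmb
      rcases le_total x (-|b|) with h | h
      · nlinarith
      · nlinarith

/-- The second order difference over a vertical segment is at most `2 |b| α C` as soon as
`|m| ≤ α` and either `m² + b² ≤ 2 |b| α` or `|b| ≤ |m|`. -/
theorem vert {f : ℂ → ℂ} (hf : Differentiable ℂ f) {C : ℝ}
    (hC : ∀ w, ‖w‖ ≤ 1 → ‖deriv (deriv f) w‖ ≤ C) {x m b α : ℝ} (hx : |x| ≤ 1)
    (hz : (x - m) ^ 2 + b ^ 2 ≤ 1) (hm : |m| ≤ α)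
    (hb : m ^ 2 + b ^ 2 ≤ 2 * |b| * α ∨ |b| ≤ |m|) :
    ‖f (((x - m : ℝ) : ℂ) + b * I) - f (((x - m : ℝ) : ℂ) + (-b : ℝ) * I)
      - (2 * b * I) * deriv f x‖ ≤ 2 * |b| * α * C := by
  have hC0 : 0 ≤ C := (norm_nonneg _).trans (hC 0 (by simp))
  have hb0 := abs_nonneg b
  have hb2 : |b| ^ 2 = b ^ 2 := sq_abs b
  have hm2 : |m| ^ 2 = m ^ 2 := sq_abs m
  rcases le_total |m| |b| with h | h
  · refine (vert_small hf hC hx hz).trans ?_
    have h1 : m ^ 2 ≤ b ^ 2 := by nlinarith [abs_nonneg m]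
    have h2 : m ^ 2 + b ^ 2 ≤ 2 * |b| * α := by
      rcases hb with hb | hb
      · exact hb
      · have h3 : |m| = |b| := le_antisymm h hb
        rw [h3] at hm
        nlinarith
    nlinarith [mul_le_mul_of_nonneg_left h2 hC0]
  · obtain ⟨m0, hm0, hdist, hz0⟩ := vert_ineq hx hz h
    have hA := vert_small hf hC hx hz0
    have hm0' : m0 ^ 2 = b ^ 2 := by rw [← sq_abs m0, hm0, sq_abs]
    -- horizontal move
    have hB : ‖(f (((x - m : ℝ) : ℂ) + b * I) - f (((x - m : ℝ) : ℂ) + (-b : ℝ) * I))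
        - (f (((x - m0 : ℝ) : ℂ) + b * I) - f (((x - m0 : ℝ) : ℂ) + (-b : ℝ) * I))‖
        ≤ (2 * |b| * C) * ‖m - m0‖ := by
      have hder : ∀ t ∈ uIcc m0 m, HasDerivWithinAt
          (fun t : ℝ => f (((x - t : ℝ) : ℂ) + b * I) - f (((x - t : ℝ) : ℂ) + (-b : ℝ) * I))
          ((-1) * deriv f (((x - t : ℝ) : ℂ) + b * I)
            - (-1) * deriv f (((x - t : ℝ) : ℂ) + (-b : ℝ) * I)) (uIcc m0 m) t := by
        intro t _
        apply HasDerivAt.hasDerivWithinAt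
        have hp : ∀ c : ℂ, HasDerivAt (fun t : ℝ => ((x - t : ℝ) : ℂ) + c) (-1) t := by
          intro c
          have h := hasDerivAt_path ((x:ℂ) + c) (-1) t
          convert h using 1
          funext s; push_cast; ring
        have h1 := HasDerivAt.scomp t
          (hf (((x - t : ℝ) : ℂ) + b * I)).hasDerivAt (hp (b * I))
        have h2 := HasDerivAt.scomp t
          (hf (((x - t : ℝ) : ℂ) + (-b : ℝ) * I)).hasDerivAt (hp ((-b : ℝ) * I))
        have h3 := h1.fun_sub h2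
        simpa [Function.comp_def, smul_eq_mul] using h3
      have hbd : ∀ t ∈ uIcc m0 m, ‖(-1) * deriv f (((x - t : ℝ) : ℂ) + b * I)
            - (-1) * deriv f (((x - t : ℝ) : ℂ) + (-b : ℝ) * I)‖ ≤ 2 * |b| * C := by
        intro t ht
        have hball : (x - t) ^ 2 + b ^ 2 ≤ 1 := by
          rcases le_total m0 m with hle | hle
          · rw [uIcc_of_le hle] at ht
            rcases le_total t x with h1 | h1
            · nlinarith [ht.1, ht.2]
            · nlinarith [ht.1, ht.2]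
          · rw [uIcc_of_ge hle] at ht
            rcases le_total t x with h1 | h1
            · nlinarith [ht.1, ht.2]
            · nlinarith [ht.1, ht.2]
        have hu : ‖((x - t : ℝ) : ℂ) + (-b : ℝ) * I‖ ≤ 1 := by
          rw [norm_le_one_iff_mk]; nlinarith
        have hv : ‖((x - t : ℝ) : ℂ) + b * I‖ ≤ 1 := by
          rw [norm_le_one_iff_mk]; exact hball
        have h := lip_ball (entire_deriv hf) hC hu hv
        have hn : ‖((x - t : ℝ) : ℂ) + b * I - (((x - t : ℝ) : ℂ) + (-b : ℝ) * I)‖ = 2 * |b| := by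
          have : ((x - t : ℝ) : ℂ) + b * I - (((x - t : ℝ) : ℂ) + (-b : ℝ) * I)
            = ((2 * b : ℝ) : ℂ) * I := by push_cast; ring
          rw [this, norm_mul, Complex.norm_I, mul_one, Complex.norm_real, Real.norm_eq_abs,
            abs_mul, abs_two]
        rw [hn] at h
        calc _ = ‖deriv f (((x - t : ℝ) : ℂ) + b * I)
              - deriv f (((x - t : ℝ) : ℂ) + (-b : ℝ) * I)‖ := by
                rw [← norm_neg]; congr 1; ring
          _ ≤ C * (2 * |b|) := h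
          _ = 2 * |b| * C := by ring
      exact Convex.norm_image_sub_le_of_norm_hasDerivWithin_le hder hbd (convex_uIcc m0 m)
        left_mem_uIcc right_mem_uIcc
    rw [Real.norm_eq_abs, hdist] at hB
    have e : f (((x - m : ℝ) : ℂ) + b * I) - f (((x - m : ℝ) : ℂ) + (-b : ℝ) * I)
      - (2 * b * I) * deriv f x
      = ((f (((x - m : ℝ) : ℂ) + b * I) - f (((x - m : ℝ) : ℂ) + (-b : ℝ) * I))
        - (f (((x - m0 : ℝ) : ℂ) + b * I) - f (((x - m0 : ℝ) : ℂ) + (-b : ℝ) * I)))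
        + (f (((x - m0 : ℝ) : ℂ) + b * I) - f (((x - m0 : ℝ) : ℂ) + (-b : ℝ) * I)
          - (2 * b * I) * deriv f x) := by ring
    rw [e]
    refine (norm_add_le _ _).trans ?_
    have h2 : C * (m0 ^ 2 + b ^ 2) = 2 * |b| * |b| * C := by rw [hm0', ← hb2]; ring
    rw [h2] at hA
    have h3 : 2 * |b| * C * (|m| - |b|) + 2 * |b| * |b| * C = 2 * |b| * |m| * C := by ring
    have h4 : 2 * |b| * |m| * C ≤ 2 * |b| * α * C := by
      apply mul_le_mul_of_nonneg_right _ hC0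
      exact mul_le_mul_of_nonneg_left hm (by positivity)
    linarith

end Pool.Agent.ConjInterp
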